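import Pool.Agent.MP_4eca2d_nt.Defs
set_option autoImplicit false

open MeasureTheory Finset

namespace LRL

theorem count_le (u w : ℕ) (hu : 0 < u) (hw : 0 < w) (x ρ : ℝ) (hρ : 0 ≤ ρ) :
    (((range w).filter (fun k : ℕ => nn ((k : ℝ) * u / w - x) ≤ ρ)).card : ℝ)
      ≤ 2 * ρ * w + Nat.gcd u w := by
  classical
  set g := Nat.gcd u w with hg
  have hg0 : 0 < g := Nat.gcd_pos_of_pos_left _ hu
  obtain ⟨u', hu'⟩ : g ∣ u := Nat.gcd_dvd_left u w
  obtain ⟨w', hw'⟩ : g ∣ w := Nat.gcd_dvd_right u w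
  have hw'0 : 0 < w' := by
    rcases Nat.eq_zero_or_pos w' with h | h
    · rw [h] at hw'; omega
    · exact h
  have hcop : Nat.Coprime u' w' := by
    have h1 : Nat.gcd (g * u') (g * w') = g := by rw [← hu', ← hw']
    rw [Nat.gcd_mul_left] at h1
    exact Nat.eq_of_mul_eq_mul_left hg0 (by rw [h1, mul_one])
  have hw'R : (0 : ℝ) < w' := by exact_mod_cast hw'0
  have hgR : (0 : ℝ) < g := by exact_mod_cast hg0
  have hfrac : ∀ k : ℕ, (k : ℝ) * u / w = (k : ℝ) * u' / w' := by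
    intro k
    rw [hu', hw']
    push_cast
    field_simp
  let z : ℕ → ℤ := fun k => (k : ℤ) * u' - w' * round ((k : ℝ) * u' / w' - x)
  have hz : ∀ k : ℕ, nn ((k : ℝ) * u / w - x) ≤ ρ →
      |((z k : ℤ) : ℝ) - x * w'| ≤ ρ * w' := by
    intro k hk
    rw [hfrac, nn] at hk
    have h1 : ((z k : ℤ) : ℝ) - x * w' =
        ((k : ℝ) * u' / w' - x - (round ((k : ℝ) * u' / w' - x) : ℝ)) * w' := by
      simp only [z]
      push_cast
      field_simp
      ring
    rw [h1, abs_mul, abs_of_pos hw'R]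
    exact mul_le_mul_of_nonneg_right hk hw'R.le
  set I := Finset.Icc ⌈x * w' - ρ * w'⌉ ⌊x * w' + ρ * w'⌋ with hI
  have hcard : (((range w).filter (fun k : ℕ => nn ((k : ℝ) * u / w - x) ≤ ρ)).card) ≤
      ((range g) ×ˢ I).card := by
    apply Finset.card_le_card_of_injOn (fun k => (k / w', z k))
    · intro k hk
      simp only [coe_filter, Set.mem_ofPred_eq, mem_range] at hk
      simp only [coe_product, Set.mem_prod, mem_coe, mem_range, hI, mem_Icc]
      refine ⟨?_, ?_, ?_⟩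
      · rw [Nat.div_lt_iff_lt_mul hw'0, ← hw']
        exact hk.1
      · rw [Int.ceil_le]
        have := (abs_le.1 (hz k hk.2)).1
        linarith
      · rw [Int.le_floor]
        have := (abs_le.1 (hz k hk.2)).2
        linarith
    · intro k hk k2 hk2 heq
      simp only [Prod.mk.injEq] at heq
      obtain ⟨h1, h2⟩ := heq
      have h3 : ((k : ℤ) * u' - k2 * u') = w' * (round ((k : ℝ) * u' / w' - x) -
          round ((k2 : ℝ) * u' / w' - x)) := by
        simp only [z] at h2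
        linarith
      have h4 : (w' : ℤ) ∣ ((k : ℤ) - k2) * u' := ⟨_, by rw [sub_mul]; exact h3⟩
      have h5 : (w' : ℤ) ∣ ((k : ℤ) - k2) := by
        apply IsCoprime.dvd_of_dvd_mul_right _ h4
        exact (Nat.isCoprime_iff_coprime.2 hcop).symm
      have h6 : k % w' = k2 % w' := by
        have : (k2 : ℤ) ≡ k [ZMOD w'] := (Int.modEq_iff_dvd).2 h5
        have := (Int.natCast_modEq_iff.1 this)
        exact this.symm
      calc k = w' * (k / w') + k % w' := (Nat.div_add_mod k w').symm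
        _ = w' * (k2 / w') + k2 % w' := by rw [h1, h6]
        _ = k2 := Nat.div_add_mod k2 w'
  have hIcard : (I.card : ℝ) ≤ 2 * ρ * w' + 1 := by
    rw [hI, Int.card_Icc]
    have h1 : (⌊x * w' + ρ * w'⌋ : ℝ) ≤ x * w' + ρ * w' := Int.floor_le _
    have h2 : x * w' - ρ * w' ≤ (⌈x * w' - ρ * w'⌉ : ℝ) := Int.le_ceil _
    have h3 : (0 : ℝ) ≤ ρ * w' := mul_nonneg hρ hw'R.le
    rcases le_total 0 (⌊x * w' + ρ * w'⌋ + 1 - ⌈x * w' - ρ * w'⌉) with h | h
    · have h4 : (((⌊x * w' + ρ * w'⌋ + 1 - ⌈x * w' - ρ * w'⌉).toNat : ℕ) : ℝ) =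
          ((⌊x * w' + ρ * w'⌋ + 1 - ⌈x * w' - ρ * w'⌉ : ℤ) : ℝ) := by
        exact_mod_cast Int.toNat_of_nonneg h
      rw [h4]
      push_cast
      linarith
    · rw [Int.toNat_of_nonpos h]
      push_cast
      nlinarith
  have hcard' : (((range w).filter (fun k : ℕ => nn ((k : ℝ) * u / w - x) ≤ ρ)).card : ℝ) ≤
      g * I.card := by
    rw [card_product, card_range] at hcard
    exact_mod_cast hcard
  calc (((range w).filter (fun k : ℕ => nn ((k : ℝ) * u / w - x) ≤ ρ)).card : ℝ)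
      ≤ g * I.card := hcard'
    _ ≤ g * (2 * ρ * w' + 1) := mul_le_mul_of_nonneg_left hIcard hgR.le
    _ = 2 * ρ * w + g := by
      rw [hw']; push_cast; ring

end LRL
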