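import Pool.Agent.MP_4eca2d_nt.Defs
set_option autoImplicit false

open MeasureTheory Finset

namespace LRL

lemma A2_nn_eq (x : ℝ) : nn x = min (Int.fract x) (1 - Int.fract x) := by
  unfold nn
  exact abs_sub_round_eq_min x

lemma A2_nn_add_nat (x : ℝ) (k : ℕ) : nn ((k : ℝ) + x) = nn x := by
  unfold nn
  rw [add_comm, round_add_natCast]
  push_cast
  congr 1
  ring

lemma A2_measurable_nn : Measurable nn := by
  have : nn = fun x => min (Int.fract x) (1 - Int.fract x) := funext A2_nn_eq
  rw [this]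
  exact measurable_fract.min (measurable_const.sub measurable_fract)

lemma A2_measurableSet_E (w : ℕ) (δ : ℝ) : MeasurableSet (E w δ) := by
  unfold E
  exact measurableSet_lt (A2_measurable_nn.comp (measurable_id.mul_const _)) measurable_const

lemma A2_m_eq (S : Set ℝ) (hS : MeasurableSet S) :
    m S = ∫ x in (0:ℝ)..1, S.indicator (fun _ => (1 : ℝ)) x := by
  unfold m
  rw [intervalIntegral.integral_of_le zero_le_one, integral_Ioc_eq_integral_Ioo,
    ← integral_Ico_eq_integral_Ioo]
  have h := integral_indicator_one (μ := volume.restrict (Set.Ico (0:ℝ) 1)) hS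
  have h2 : S.indicator (fun _ => (1 : ℝ)) = S.indicator 1 := rfl
  rw [h2, h, Measure.real, Measure.restrict_apply hS]

lemma A2_ii (S : Set ℝ) (hS : MeasurableSet S) (a b : ℝ) :
    IntervalIntegrable (S.indicator (fun _ => (1 : ℝ))) volume a b := by
  constructor
  · exact IntegrableOn.indicator (integrableOn_const (by simp)) hS
  · exact IntegrableOn.indicator (integrableOn_const (by simp)) hS

lemma A2_nn_small (s : ℝ) (h : |s| ≤ 1 / 2) : nn s = |s| := by
  rw [abs_le] at h
  rw [A2_nn_eq]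
  rcases le_or_gt 0 s with h0 | h0
  · have : Int.fract s = s := Int.fract_eq_self.mpr ⟨h0, by linarith⟩
    rw [this, abs_of_nonneg h0, min_eq_left (by linarith)]
  · have : Int.fract s = s + 1 := by
      rw [← Int.fract_add_one, Int.fract_eq_self.mpr ⟨by linarith, by linarith⟩]
    rw [this, abs_of_neg h0, min_eq_right (by linarith)]
    ring

lemma A2_nn_big (s δ : ℝ) (h0 : 0 < δ) (h1 : δ ≤ s) (h2 : s ≤ 1 - δ) : δ ≤ nn s := by
  rw [A2_nn_eq]
  have : Int.fract s = s := Int.fract_eq_self.mpr ⟨by linarith, by linarith⟩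
  rw [this]
  exact le_min h1 (by linarith)

/-- A2 (unfolding).  `E w δ` is the union of the arcs `((k-δ)/w,(k+δ)/w)`. -/
theorem m_inter_E (w : ℕ) (hw : 0 < w) (δ : ℝ) (h0 : 0 < δ) (h1 : δ ≤ 1 / 2) (F : Set ℝ)
    (hF : MeasurableSet F) (hper : ∀ t : ℝ, t + 1 ∈ F ↔ t ∈ F) :
    m (F ∩ E w δ) = (1 / (w : ℝ)) *
      ∫ s in (-δ)..δ, (∑ k ∈ range w, F.indicator (fun _ => (1 : ℝ)) (((k : ℝ) + s) / w)) := by
  have hw' : (0 : ℝ) < w := by exact_mod_cast hw
  have hES := A2_measurableSet_E w δ
  have hS : MeasurableSet (F ∩ E w δ) := hF.inter hES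
  set S := F ∩ E w δ with hSdef
  set g : ℝ → ℝ := S.indicator (fun _ => (1 : ℝ)) with hg
  rw [A2_m_eq S hS]
  -- periodicity
  have hperS : ∀ t : ℝ, t + 1 ∈ S ↔ t ∈ S := by
    intro t
    rw [hSdef, Set.mem_inter_iff, Set.mem_inter_iff, hper t]
    have : t + 1 ∈ E w δ ↔ t ∈ E w δ := by
      unfold E
      simp only [Set.mem_ofPred_eq]
      have e : (t + 1) * (w : ℝ) = (w : ℝ) + t * w := by ring
      rw [e, A2_nn_add_nat]
    rw [this]
  have hgper : Function.Periodic g 1 := by
    intro t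
    rw [hg]
    by_cases ht : t ∈ S
    · rw [Set.indicator_of_mem ht, Set.indicator_of_mem ((hperS t).mpr ht)]
    · rw [Set.indicator_of_notMem ht, Set.indicator_of_notMem (fun h => ht ((hperS t).mp h))]
  have e1 : ∫ x in (0:ℝ)..1, g x = ∫ x in (-δ / w)..(-δ / w + 1), g x := by
    have := hgper.intervalIntegral_add_eq 0 (-δ / w)
    rwa [zero_add] at this
  rw [e1]
  have e2 : ∫ x in (-δ / w)..(-δ / w + 1), g x = (1 / (w : ℝ)) * ∫ y in (-δ)..(-δ + w), g (y / w) := by
    rw [intervalIntegral.integral_comp_div g hw'.ne']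
    have : (-δ + w) / w = -δ / w + 1 := by field_simp
    rw [this, smul_eq_mul, ← mul_assoc]
    field_simp
  rw [e2]
  congr 1
  -- splitting
  have hmeas : MeasurableSet ((fun y : ℝ => y / (w : ℝ)) ⁻¹' S) :=
    (measurable_id.div_const _) hS
  have hgw : (fun y : ℝ => g (y / w)) =
      ((fun y : ℝ => y / (w : ℝ)) ⁻¹' S).indicator (fun _ => (1 : ℝ)) := by
    funext y
    rw [hg]
    rfl
  have hint : ∀ a b : ℝ, IntervalIntegrable (fun y : ℝ => g (y / w)) volume a b := by
    intro a b
    rw [hgw]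
    exact A2_ii _ hmeas a b
  have e3 : ∫ y in (-δ)..(-δ + w), g (y / w) =
      ∑ k ∈ range w, ∫ y in (-δ + (k : ℝ))..(-δ + ((k + 1 : ℕ) : ℝ)), g (y / w) := by
    have := intervalIntegral.sum_integral_adjacent_intervals (μ := volume)
      (f := fun y : ℝ => g (y / w)) (a := fun k : ℕ => -δ + (k : ℝ)) (n := w)
      (fun k _ => hint _ _)
    rw [this]
    simp
  rw [e3, intervalIntegral.integral_finsetSum]
  · apply Finset.sum_congr rfl
    intro k _
    have e4 : ∫ y in (-δ + (k : ℝ))..(-δ + ((k + 1 : ℕ) : ℝ)), g (y / w) =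
        ∫ s in (-δ)..(1 - δ), g (((k : ℝ) + s) / w) := by
      rw [intervalIntegral.integral_comp_add_left (fun y => g (y / w)) (k : ℝ)]
      congr 1
      · ring
      · push_cast; ring
    have hmk : MeasurableSet ((fun s : ℝ => ((k : ℝ) + s) / (w : ℝ)) ⁻¹' S) :=
      ((measurable_const.add measurable_id).div_const _) hS
    have hgk : (fun s : ℝ => g (((k : ℝ) + s) / w)) =
        ((fun s : ℝ => ((k : ℝ) + s) / (w : ℝ)) ⁻¹' S).indicator (fun _ => (1 : ℝ)) := by
      funext y
      rw [hg]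
      rfl
    have hintk : ∀ a b : ℝ, IntervalIntegrable (fun s : ℝ => g (((k : ℝ) + s) / w)) volume a b := by
      intro a b
      rw [hgk]
      exact A2_ii _ hmk a b
    rw [e4, ← intervalIntegral.integral_add_adjacent_intervals (hintk (-δ) δ) (hintk δ (1 - δ))]
    have hmem : ∀ s : ℝ, (((k : ℝ) + s) / (w : ℝ) ∈ S ↔
        (((k : ℝ) + s) / (w : ℝ) ∈ F ∧ nn s < δ)) := by
      intro s
      rw [hSdef, Set.mem_inter_iff]
      unfold E
      simp only [Set.mem_ofPred_eq]
      have e : ((k : ℝ) + s) / (w : ℝ) * w = (k : ℝ) + s := by field_simp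
      rw [e, A2_nn_add_nat]
    have z2 : ∫ s in δ..(1 - δ), g (((k : ℝ) + s) / w) = 0 := by
      have : ∫ s in δ..(1 - δ), g (((k : ℝ) + s) / w) = ∫ s in δ..(1 - δ), (0 : ℝ) := by
        apply intervalIntegral.integral_congr
        intro s hs
        rw [Set.uIcc_of_le (by linarith)] at hs
        simp only
        rw [hg]
        apply Set.indicator_of_notMem
        intro hh
        have := ((hmem s).mp hh).2
        have := A2_nn_big s δ h0 hs.1 hs.2
        linarith
      rw [this]
      simp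
    rw [z2, add_zero]
    apply intervalIntegral.integral_congr_ae
    filter_upwards [(Set.countable_singleton δ).ae_notMem volume] with s hsne hs
    rw [Set.uIoc_of_le (by linarith)] at hs
    have hsne' : s ≠ δ := fun h => hsne (by rw [h]; exact Set.mem_singleton δ)
    have hs' : |s| < δ := abs_lt.mpr ⟨hs.1, lt_of_le_of_ne hs.2 hsne'⟩
    rw [hg]
    have hnn : nn s < δ := by
      rw [A2_nn_small s (by linarith)]
      exact hs'
    by_cases hmF : ((k : ℝ) + s) / (w : ℝ) ∈ F
    · rw [Set.indicator_of_mem hmF, Set.indicator_of_mem ((hmem s).mpr ⟨hmF, hnn⟩)]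
    · rw [Set.indicator_of_notMem hmF, Set.indicator_of_notMem (fun h => hmF ((hmem s).mp h).1)]
  · intro k _
    have hmk : MeasurableSet ((fun s : ℝ => ((k : ℝ) + s) / (w : ℝ)) ⁻¹' F) :=
      ((measurable_const.add measurable_id).div_const _) hF
    exact A2_ii _ hmk _ _

/-- A4, from A2. -/
theorem m_E (w : ℕ) (hw : 0 < w) (δ : ℝ) (h0 : 0 < δ) (h1 : δ ≤ 1 / 2) : m (E w δ) = 2 * δ := by
  have h := m_inter_E w hw δ h0 h1 Set.univ MeasurableSet.univ (fun t => by simp)
  rw [Set.univ_inter] at h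
  rw [h]
  have hw' : (0 : ℝ) < w := by exact_mod_cast hw
  simp only [Set.indicator_univ, sum_const, card_range, nsmul_eq_mul, mul_one,
    intervalIntegral.integral_const, smul_eq_mul]
  field_simp
  ring

end LRL
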