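import Pool.Agent.MP_4eca2d_nt.A1
import Pool.Agent.MP_4eca2d_nt.A2
set_option autoImplicit false

open MeasureTheory Finset

namespace LRL


theorem cmp_nn_le (x : ℝ) (z : ℤ) : nn x ≤ |x - z| := round_le x z

theorem cmp_nn_lip (x y : ℝ) : nn x ≤ nn y + |x - y| := by
  have h1 := cmp_nn_le x (round y)
  have h2 : |x - (round y : ℝ)| ≤ |x - y| + |y - (round y : ℝ)| := abs_sub_le _ _ _
  unfold nn at *
  linarith

theorem cmp_nn_cont : Continuous nn := by
  have : LipschitzWith 1 nn := by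
    refine LipschitzWith.of_le_add ?_
    intro x y
    have := cmp_nn_lip x y
    rwa [Real.dist_eq]
  exact this.continuous

theorem cmp_nn_add_nat (x : ℝ) (k : ℕ) : nn (x + k) = nn x := by
  unfold nn
  rw [round_add_natCast]
  push_cast
  congr 1
  ring

theorem cmp_Av_meas (U : Finset ℕ) (δ : ℝ) : MeasurableSet (Av U δ) := by
  have : Av U δ = ⋂ u ∈ U, {t : ℝ | δ ≤ nn (t * u)} := by
    ext t
    simp [Av]
  rw [this]
  refine Finset.measurableSet_biInter U (fun u _ => ?_)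
  exact (isClosed_le continuous_const (cmp_nn_cont.comp (continuous_id.mul continuous_const))).measurableSet

theorem cmp_Av_per (U : Finset ℕ) (δ : ℝ) (t : ℝ) : t + 1 ∈ Av U δ ↔ t ∈ Av U δ := by
  have h : ∀ u : ℕ, nn ((t + 1) * u) = nn (t * u) := by
    intro u
    have : (t + 1) * (u : ℝ) = t * u + u := by ring
    rw [this, cmp_nn_add_nat]
  simp only [Av, Set.mem_ofPred_eq, h]

theorem cmp_int (F : Set ℝ) (hF : MeasurableSet F) (w : ℕ) (c a b : ℝ) :
    IntervalIntegrable (fun s : ℝ => ∑ k ∈ range w,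
      F.indicator (fun _ => (1 : ℝ)) (((k : ℝ) + c * s) / w)) volume a b := by
  have hmeas : Measurable (fun s : ℝ => ∑ k ∈ range w,
      F.indicator (fun _ => (1 : ℝ)) (((k : ℝ) + c * s) / w)) := by
    refine Finset.measurable_sum _ (fun k _ => ?_)
    have h1 : Measurable (F.indicator (fun _ => (1 : ℝ))) := measurable_const.indicator hF
    have h2 : Measurable (fun s : ℝ => ((k : ℝ) + c * s) / w) := by fun_prop
    exact h1.comp h2
  rw [intervalIntegrable_iff]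
  refine Measure.integrableOn_of_bounded (M := (w : ℝ)) ?_ hmeas.aestronglyMeasurable ?_
  · simp [Set.uIoc]
  · refine Filter.Eventually.of_forall (fun s => ?_)
    rw [Real.norm_eq_abs, abs_of_nonneg (Finset.sum_nonneg (fun k _ =>
      Set.indicator_nonneg (fun _ _ => zero_le_one) _))]
    calc ∑ k ∈ range w, F.indicator (fun _ => (1 : ℝ)) (((k : ℝ) + c * s) / w)
        ≤ ∑ k ∈ range w, (1 : ℝ) := Finset.sum_le_sum (fun k _ =>
          Set.indicator_le_self' (fun _ _ => zero_le_one) _)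
      _ = w := by simp

/-- the pointwise count -/
theorem cmp_count (U : Finset ℕ) (hU : ∀ u ∈ U, 0 < u) (w : ℕ) (hw : 0 < w) (δ0 δ1 s s' : ℝ)
    (hδ1 : 0 ≤ δ1) (hs : |s| ≤ δ1) (hs' : |s'| ≤ δ1) :
    ∑ k ∈ range w, (Av U δ0).indicator (fun _ => (1 : ℝ)) (((k : ℝ) + s) / w)
      ≤ ∑ k ∈ range w, (Av U δ0).indicator (fun _ => (1 : ℝ)) (((k : ℝ) + s') / w)
        + ∑ u ∈ U, 2 * (2 * δ1 * u + Nat.gcd u w) := by
  classical
  have hw' : (0 : ℝ) < w := by exact_mod_cast hw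
  have e1 : ∀ r : ℝ, ∑ k ∈ range w, (Av U δ0).indicator (fun _ => (1 : ℝ)) (((k : ℝ) + r) / w)
      = (((range w).filter (fun k : ℕ => ((k : ℝ) + r) / w ∈ Av U δ0)).card : ℝ) := by
    intro r
    rw [Finset.card_filter]
    push_cast
    refine Finset.sum_congr rfl (fun k _ => ?_)
    by_cases h : ((k : ℝ) + r) / w ∈ Av U δ0
    · simp [h]
    · simp [h]
  rw [e1, e1]
  have hsub : (range w).filter (fun k : ℕ => ((k : ℝ) + s) / w ∈ Av U δ0) ⊆
      (range w).filter (fun k : ℕ => ((k : ℝ) + s') / w ∈ Av U δ0) ∪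
      U.biUnion (fun u => (range w).filter (fun k : ℕ => nn ((k : ℝ) * u / w - δ0) ≤ δ1 * u / w) ∪
        (range w).filter (fun k : ℕ => nn ((k : ℝ) * u / w - (-δ0)) ≤ δ1 * u / w)) := by
    intro k hk
    rw [Finset.mem_filter] at hk
    obtain ⟨hk1, hk2⟩ := hk
    rw [Finset.mem_union]
    by_cases hk3 : ((k : ℝ) + s') / w ∈ Av U δ0
    · exact Or.inl (Finset.mem_filter.2 ⟨hk1, hk3⟩)
    · right
      simp only [Av, Set.mem_ofPred_eq, not_forall, not_le] at hk2 hk3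
      obtain ⟨u, hu, hu2⟩ := hk3
      have hu1 := hk2 u hu
      have hu0 : (0 : ℝ) ≤ u := Nat.cast_nonneg u
      rw [Finset.mem_biUnion]
      refine ⟨u, hu, ?_⟩
      rw [Finset.mem_union, Finset.mem_filter, Finset.mem_filter]
      have b1 : ∀ r : ℝ, |r| ≤ δ1 → |((k : ℝ) + r) / w * u - (k : ℝ) * u / w| ≤ δ1 * u / w := by
        intro r hr
        have : ((k : ℝ) + r) / w * u - (k : ℝ) * u / w = r * (u / w) := by field_simp; ring
        rw [this, abs_mul, abs_of_nonneg (div_nonneg hu0 hw'.le), mul_div_assoc]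
        exact mul_le_mul_of_nonneg_right hr (div_nonneg hu0 hw'.le)
      have l1 := cmp_nn_lip (((k : ℝ) + s) / w * u) ((k : ℝ) * u / w)
      have l2 := cmp_nn_lip ((k : ℝ) * u / w) (((k : ℝ) + s') / w * u)
      have b2 := b1 s hs
      have b3 := b1 s' hs'
      rw [abs_sub_comm] at b3
      have c1 : δ0 - δ1 * u / w ≤ nn ((k : ℝ) * u / w) := by linarith
      have c2 : nn ((k : ℝ) * u / w) ≤ δ0 + δ1 * u / w := by linarith
      rcases le_total 0 ((k : ℝ) * u / w - (round ((k : ℝ) * u / w) : ℝ)) with h | h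
      · left
        refine ⟨hk1, ?_⟩
        have h2 := cmp_nn_le ((k : ℝ) * u / w - δ0) (round ((k : ℝ) * u / w))
        refine h2.trans ?_
        unfold nn at c1 c2
        rw [abs_of_nonneg h] at c1 c2
        rw [abs_le]
        constructor <;> linarith
      · right
        refine ⟨hk1, ?_⟩
        have h2 := cmp_nn_le ((k : ℝ) * u / w - (-δ0)) (round ((k : ℝ) * u / w))
        refine h2.trans ?_
        unfold nn at c1 c2
        rw [abs_of_nonpos h] at c1 c2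
        rw [abs_le]
        constructor <;> linarith
  have hcard := Finset.card_le_card hsub
  have h2 : (((range w).filter (fun k : ℕ => ((k : ℝ) + s) / w ∈ Av U δ0)).card : ℝ) ≤
      ((range w).filter (fun k : ℕ => ((k : ℝ) + s') / w ∈ Av U δ0)).card +
      ∑ u ∈ U, (((range w).filter (fun k : ℕ => nn ((k : ℝ) * u / w - δ0) ≤ δ1 * u / w) ∪
        (range w).filter (fun k : ℕ => nn ((k : ℝ) * u / w - (-δ0)) ≤ δ1 * u / w)).card : ℝ) := by
    have h3 := (hcard.trans (Finset.card_union_le _ _)).trans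
      (Nat.add_le_add_left (Finset.card_biUnion_le) _)
    exact_mod_cast h3
  refine h2.trans (add_le_add le_rfl (Finset.sum_le_sum (fun u hu => ?_)))
  have hρ : 0 ≤ δ1 * u / w := by positivity
  have g1 := count_le u w (hU u hu) hw δ0 (δ1 * u / w) hρ
  have g2 := count_le u w (hU u hu) hw (-δ0) (δ1 * u / w) hρ
  have g3 : (((range w).filter (fun k : ℕ => nn ((k : ℝ) * u / w - δ0) ≤ δ1 * u / w) ∪
        (range w).filter (fun k : ℕ => nn ((k : ℝ) * u / w - (-δ0)) ≤ δ1 * u / w)).card : ℝ) ≤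
      ((range w).filter (fun k : ℕ => nn ((k : ℝ) * u / w - δ0) ≤ δ1 * u / w)).card +
        ((range w).filter (fun k : ℕ => nn ((k : ℝ) * u / w - (-δ0)) ≤ δ1 * u / w)).card := by
    exact_mod_cast Finset.card_union_le _ _
  have g4 : 2 * (δ1 * u / w) * w = 2 * δ1 * u := by field_simp
  rw [g4] at g1 g2
  linarith

theorem compare (U : Finset ℕ) (hU : ∀ u ∈ U, 0 < u) (w : ℕ) (hw : 0 < w) (δ0 δ1 : ℝ)
    (h0 : 0 < δ0) (h01 : δ0 ≤ δ1) (h1 : δ1 ≤ 1 / 2) :
    m (Av U δ0 ∩ E w δ0) ≤ (δ0 / δ1) * m (Av U δ0 ∩ E w δ1)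
      + (4 * δ0 / w) * ∑ u ∈ U, (2 * δ1 * u + Nat.gcd u w) := by
  have hw' : (0 : ℝ) < w := by exact_mod_cast hw
  have hδ1 : 0 < δ1 := lt_of_lt_of_le h0 h01
  rw [m_inter_E w hw δ0 h0 (h01.trans h1) _ (cmp_Av_meas U δ0) (cmp_Av_per U δ0),
    m_inter_E w hw δ1 hδ1 h1 _ (cmp_Av_meas U δ0) (cmp_Av_per U δ0)]
  set f : ℝ → ℝ := fun s => ∑ k ∈ range w,
    (Av U δ0).indicator (fun _ => (1 : ℝ)) (((k : ℝ) + s) / w) with hf
  set S : ℝ := ∑ u ∈ U, (2 * δ1 * u + Nat.gcd u w) with hS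
  have hsubst : ∫ s in (-δ0)..δ0, f ((δ1 / δ0) * s) = (δ0 / δ1) * ∫ s in (-δ1)..δ1, f s := by
    rw [intervalIntegral.integral_comp_mul_left f (by positivity)]
    have a1 : δ1 / δ0 * -δ0 = -δ1 := by field_simp
    have a2 : δ1 / δ0 * δ0 = δ1 := by field_simp
    rw [a1, a2, smul_eq_mul, inv_div]
  have i0 : IntervalIntegrable f volume (-δ0) δ0 := by
    have := cmp_int (Av U δ0) (cmp_Av_meas U δ0) w 1 (-δ0) δ0
    simpa only [one_mul] using this
  have i1 : IntervalIntegrable (fun s => f ((δ1 / δ0) * s)) volume (-δ0) δ0 :=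
    cmp_int (Av U δ0) (cmp_Av_meas U δ0) w (δ1 / δ0) (-δ0) δ0
  have hmono : ∫ s in (-δ0)..δ0, f s ≤ ∫ s in (-δ0)..δ0, (f ((δ1 / δ0) * s) + 2 * S) := by
    refine intervalIntegral.integral_mono_on (by linarith) i0
      (i1.add intervalIntegrable_const) (fun s hs => ?_)
    have hs1 : |s| ≤ δ0 := abs_le.2 hs
    have hs2 : |δ1 / δ0 * s| ≤ δ1 := by
      rw [abs_mul, abs_of_nonneg (by positivity)]
      calc δ1 / δ0 * |s| ≤ δ1 / δ0 * δ0 := mul_le_mul_of_nonneg_left hs1 (by positivity)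
        _ = δ1 := by field_simp
    have h := cmp_count U hU w hw δ0 δ1 s (δ1 / δ0 * s) hδ1.le (hs1.trans h01) hs2
    have e : ∑ u ∈ U, 2 * (2 * δ1 * (u : ℝ) + (Nat.gcd u w : ℝ)) = 2 * S := by
      rw [hS, Finset.mul_sum]
    rw [e] at h
    exact h
  rw [intervalIntegral.integral_add i1 intervalIntegrable_const, hsubst,
    intervalIntegral.integral_const, smul_eq_mul] at hmono
  calc 1 / (w : ℝ) * ∫ s in (-δ0)..δ0, f s
      ≤ 1 / (w : ℝ) * ((δ0 / δ1) * (∫ s in (-δ1)..δ1, f s) + (δ0 - -δ0) * (2 * S)) :=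
        mul_le_mul_of_nonneg_left hmono (by positivity)
    _ = δ0 / δ1 * (1 / (w : ℝ) * ∫ s in (-δ1)..δ1, f s) + (4 * δ0 / w) * S := by ring

end LRL
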