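import Pool.Agent.MP_4eca2d_nt.A1
import Pool.Agent.MP_4eca2d_nt.A2
set_option autoImplicit false

open MeasureTheory Finset

namespace LRL


theorem A5_nn_add_nat (x : ℝ) (k : ℕ) : nn (x + k) = nn x := by
  unfold nn
  rw [round_add_natCast]
  push_cast
  congr 1
  ring

theorem A5_measurable_nn : Measurable nn := by
  have h : nn = fun x : ℝ => |x - ((⌊x + 1 / 2⌋ : ℤ) : ℝ)| := by
    funext x
    unfold nn
    rw [round_eq]
  rw [h]
  have h2 : Measurable (fun x : ℝ => ((⌊x + 1 / 2⌋ : ℤ) : ℝ)) :=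
    measurable_from_top.comp (Int.measurable_floor.comp (measurable_id.add_const _))
  exact (measurable_id.sub h2).abs

theorem A5_measurableSet_E (u : ℕ) (δ : ℝ) : MeasurableSet (E u δ) := by
  unfold E
  exact measurableSet_lt (A5_measurable_nn.comp (measurable_id.mul_const _)) measurable_const

theorem A5_E_periodic (u : ℕ) (δ : ℝ) (t : ℝ) : t + 1 ∈ E u δ ↔ t ∈ E u δ := by
  unfold E
  simp only [Set.mem_ofPred_eq]
  have : (t + 1) * (u : ℝ) = t * u + u := by ring
  rw [this, A5_nn_add_nat]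

/-- A5. -/
theorem m_E_inter (u w : ℕ) (hu : 0 < u) (hw : 0 < w) (δ : ℝ) (h0 : 0 < δ) (h1 : δ ≤ 1 / 2) :
    m (E u δ ∩ E w δ) ≤ 4 * δ ^ 2 + 2 * δ * ((Nat.gcd u w : ℝ) / w) := by
  have hw' : (0 : ℝ) < w := by exact_mod_cast hw
  rw [m_inter_E w hw δ h0 h1 (E u δ) (A5_measurableSet_E u δ) (A5_E_periodic u δ)]
  have hbound : ∀ s : ℝ, ‖∑ k ∈ range w, (E u δ).indicator (fun _ => (1 : ℝ)) (((k : ℝ) + s) / w)‖
      ≤ 2 * δ * w + Nat.gcd u w := by
    intro s
    have hnonneg : 0 ≤ ∑ k ∈ range w, (E u δ).indicator (fun _ => (1 : ℝ)) (((k : ℝ) + s) / w) :=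
      Finset.sum_nonneg (fun k _ => Set.indicator_nonneg (fun _ _ => zero_le_one) _)
    rw [Real.norm_eq_abs, abs_of_nonneg hnonneg]
    refine le_trans ?_ (count_le u w hu hw (-(s * u / w)) δ h0.le)
    rw [Finset.card_filter]
    push_cast
    apply Finset.sum_le_sum
    intro k _
    by_cases hk : (((k : ℝ) + s) / w) ∈ E u δ
    · rw [Set.indicator_of_mem hk, if_pos]
      unfold E at hk
      simp only [Set.mem_ofPred_eq] at hk
      have e : (k : ℝ) * u / w - -(s * u / w) = ((k : ℝ) + s) / w * u := by ring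
      rw [e]
      exact hk.le
    · rw [Set.indicator_of_notMem hk]
      split_ifs <;> norm_num
  have hint := intervalIntegral.norm_integral_le_of_norm_le_const (a := -δ) (b := δ)
    (f := fun s : ℝ => ∑ k ∈ range w, (E u δ).indicator (fun _ => (1 : ℝ)) (((k : ℝ) + s) / w))
    (C := 2 * δ * w + Nat.gcd u w) (fun s _ => hbound s)
  have e2 : |δ - -δ| = 2 * δ := by
    rw [abs_of_nonneg (by linarith)]; ring
  rw [e2] at hint
  have h3 := (le_abs_self _).trans hint
  calc (1 / (w : ℝ)) * ∫ s in (-δ)..δ,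
        (∑ k ∈ range w, (E u δ).indicator (fun _ => (1 : ℝ)) (((k : ℝ) + s) / w))
      ≤ (1 / (w : ℝ)) * ((2 * δ * w + Nat.gcd u w) * (2 * δ)) := by
        exact mul_le_mul_of_nonneg_left h3 (by positivity)
    _ = 4 * δ ^ 2 + 2 * δ * ((Nat.gcd u w : ℝ) / w) := by
        field_simp
        ring

/-- A6. -/
theorem m_E_inter' (u w : ℕ) (hu : 0 < u) (hw : 0 < w) (δ : ℝ) (h0 : 0 < δ) (h1 : δ ≤ 1 / 2) :
    m (E u δ ∩ E w δ) ≤ 4 * δ ^ 2 + 2 * δ * G u w := by
  have key : ∀ a b : ℕ, 0 < a → 0 < b → a ≤ b → (Nat.gcd a b : ℝ) / b ≤ G a b := by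
    intro a b ha hb hab
    have ha' : (0 : ℝ) < a := by exact_mod_cast ha
    have hb' : (0 : ℝ) < b := by exact_mod_cast hb
    unfold G
    have hle : Real.sqrt ((a : ℝ) * b) ≤ b := by
      rw [Real.sqrt_le_left hb'.le]
      have : (a : ℝ) ≤ b := by exact_mod_cast hab
      nlinarith
    have hpos : 0 < Real.sqrt ((a : ℝ) * b) := Real.sqrt_pos.2 (by positivity)
    exact div_le_div_of_nonneg_left (by positivity) hpos hle
  rcases le_total u w with h | h
  · have h2 := m_E_inter u w hu hw δ h0 h1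
    have h3 := key u w hu hw h
    have h4 : 2 * δ * ((Nat.gcd u w : ℝ) / w) ≤ 2 * δ * G u w :=
      mul_le_mul_of_nonneg_left h3 (by linarith)
    linarith
  · have h2 := m_E_inter w u hw hu δ h0 h1
    have h3 := key w u hw hu h
    have h4 : 2 * δ * ((Nat.gcd w u : ℝ) / u) ≤ 2 * δ * G w u :=
      mul_le_mul_of_nonneg_left h3 (by linarith)
    have e : G w u = G u w := by
      unfold G
      rw [Nat.gcd_comm, mul_comm (w : ℝ)]
    rw [Set.inter_comm]
    rw [e] at h4
    linarith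

end LRL
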