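import Pool.Agent.MP_4eca2d_nt.A5
set_option autoImplicit false

open MeasureTheory Finset

namespace LRL


private theorem measurable_nn_B1 : Measurable nn := by
  unfold nn
  have h : Measurable (fun x : ℝ => ((round x : ℤ) : ℝ)) := by
    have : (fun x : ℝ => ((round x : ℤ) : ℝ)) = fun x : ℝ => ((⌊x + 1 / 2⌋ : ℤ) : ℝ) := by
      funext x; rw [round_eq]
    rw [this]
    fun_prop
  exact (measurable_id.sub h).abs

private theorem measurableSet_E_B1 (w : ℕ) (δ : ℝ) : MeasurableSet (E w δ) := by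
  unfold E
  exact measurableSet_lt (measurable_nn_B1.comp (measurable_id.mul_const _)) measurable_const

/-- Lebesgue measure on `[0,1)` -/
private noncomputable def mu1 : Measure ℝ := volume.restrict (Set.Ico 0 1)

private instance : IsProbabilityMeasure mu1 := by
  constructor
  unfold mu1
  rw [Measure.restrict_apply_univ, Real.volume_Ico]
  simp

private theorem m_eq (S : Set ℝ) : m S = mu1.real S := by
  unfold m mu1 Measure.real
  rw [Measure.restrict_apply' measurableSet_Ico]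

private theorem int_ind (S : Set ℝ) (hS : MeasurableSet S) :
    ∫ t, S.indicator (fun _ => (1 : ℝ)) t ∂mu1 = m S := by
  rw [m_eq]
  exact integral_indicator_one hS

private theorem intble_ind (S : Set ℝ) (hS : MeasurableSet S) :
    Integrable (fun t => S.indicator (fun _ => (1 : ℝ)) t) mu1 :=
  (integrable_const (1 : ℝ)).indicator hS

/-- B1 -/
theorem secmom (B : Finset ℕ) (hB : ∀ w ∈ B, 0 < w) (δ : ℝ) (h0 : 0 < δ) (h1 : δ ≤ 1 / 2)
    (S : Set ℝ) (hS : MeasurableSet S) :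
    ∑ w ∈ B, m (S ∩ E w δ) ≤ 2 * δ * B.card * m S
      + Real.sqrt (2 * δ * ∑ a ∈ B, ∑ b ∈ B, G a b) := by
  set c : ℝ := 2 * δ * B.card with hc
  set A : ℝ := ∑ w ∈ B, m (S ∩ E w δ) - c * m S with hA
  let ind : Set ℝ → ℝ → ℝ := fun T t => T.indicator (fun _ => (1 : ℝ)) t
  have hEm : ∀ w, MeasurableSet (E w δ) := fun w => measurableSet_E_B1 w δ
  have hmul : ∀ (T T' : Set ℝ) (t : ℝ), ind T t * ind T' t = ind (T ∩ T') t := by
    intro T T' t
    simp only [ind]
    by_cases h1 : t ∈ T <;> by_cases h2 : t ∈ T' <;> simp [h1, h2]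
  -- the square
  have hpt : ∀ t, (A * ind S t - (∑ w ∈ B, ind (E w δ) t - c)) ^ 2 =
      A ^ 2 * ind S t + 2 * A * c * ind S t - 2 * A * ∑ w ∈ B, ind (S ∩ E w δ) t
        + ∑ a ∈ B, ∑ b ∈ B, ind (E a δ ∩ E b δ) t - 2 * c * ∑ w ∈ B, ind (E w δ) t + c ^ 2 := by
    intro t
    have e1 : ind S t * ind S t = ind S t := by rw [hmul, Set.inter_self]
    have e2 : ind S t * ∑ w ∈ B, ind (E w δ) t = ∑ w ∈ B, ind (S ∩ E w δ) t := by
      rw [Finset.mul_sum]
      exact Finset.sum_congr rfl fun w _ => hmul _ _ _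
    have e3 : (∑ w ∈ B, ind (E w δ) t) * (∑ w ∈ B, ind (E w δ) t) =
        ∑ a ∈ B, ∑ b ∈ B, ind (E a δ ∩ E b δ) t := by
      rw [Finset.sum_mul_sum]
      exact Finset.sum_congr rfl fun a _ => Finset.sum_congr rfl fun b _ => hmul _ _ _
    rw [← e2, ← e3]
    have e4 : (A * ind S t - (∑ w ∈ B, ind (E w δ) t - c)) ^ 2 =
        A ^ 2 * (ind S t * ind S t) + 2 * A * c * ind S t
          - 2 * A * (ind S t * ∑ w ∈ B, ind (E w δ) t)
          + (∑ w ∈ B, ind (E w δ) t) * (∑ w ∈ B, ind (E w δ) t)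
          - 2 * c * ∑ w ∈ B, ind (E w δ) t + c ^ 2 := by ring
    rw [e4, e1]
  have hi1 : Integrable (fun t => ind S t) mu1 := intble_ind S hS
  have hi2 : Integrable (fun t => ∑ w ∈ B, ind (S ∩ E w δ) t) mu1 :=
    integrable_finsetSum _ fun w _ => intble_ind _ (hS.inter (hEm w))
  have hi3 : Integrable (fun t => ∑ a ∈ B, ∑ b ∈ B, ind (E a δ ∩ E b δ) t) mu1 :=
    integrable_finsetSum _ fun a _ => integrable_finsetSum _ fun b _ =>
      intble_ind _ ((hEm a).inter (hEm b))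
  have hi4 : Integrable (fun t => ∑ w ∈ B, ind (E w δ) t) mu1 :=
    integrable_finsetSum _ fun w _ => intble_ind _ (hEm w)
  have hint : ∫ t, (A * ind S t - (∑ w ∈ B, ind (E w δ) t - c)) ^ 2 ∂mu1 =
      A ^ 2 * m S + 2 * A * c * m S - 2 * A * ∑ w ∈ B, m (S ∩ E w δ)
        + ∑ a ∈ B, ∑ b ∈ B, m (E a δ ∩ E b δ) - 2 * c * ∑ w ∈ B, m (E w δ) + c ^ 2 := by
    simp_rw [hpt]
    rw [integral_add, integral_sub, integral_add, integral_sub, integral_add]
    · simp only [integral_const_mul, integral_const, probReal_univ, smul_eq_mul, one_mul]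
      rw [integral_finsetSum _ fun w _ => intble_ind _ (hS.inter (hEm w)),
        integral_finsetSum _ fun a _ => integrable_finsetSum _ fun b _ =>
          intble_ind _ ((hEm a).inter (hEm b)),
        integral_finsetSum _ fun w _ => intble_ind _ (hEm w)]
      have e1 : ∫ t, ind S t ∂mu1 = m S := int_ind S hS
      have e2 : ∀ w, ∫ t, (S ∩ E w δ).indicator (fun _ => (1 : ℝ)) t ∂mu1 = m (S ∩ E w δ) :=
        fun w => int_ind _ (hS.inter (hEm w))
      have e3 : ∀ a, ∫ t, ∑ b ∈ B, (E a δ ∩ E b δ).indicator (fun _ => (1 : ℝ)) t ∂mu1 =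
          ∑ b ∈ B, m (E a δ ∩ E b δ) := by
        intro a
        rw [integral_finsetSum _ fun b _ => intble_ind _ ((hEm a).inter (hEm b))]
        exact Finset.sum_congr rfl fun b _ => int_ind _ ((hEm a).inter (hEm b))
      have e4 : ∀ w, ∫ t, (E w δ).indicator (fun _ => (1 : ℝ)) t ∂mu1 = m (E w δ) :=
        fun w => int_ind _ (hEm w)
      rw [e1]
      simp only [e2, e3, e4]
    · exact hi1.const_mul _
    · exact hi1.const_mul _
    · exact (hi1.const_mul _).add (hi1.const_mul _)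
    · exact hi2.const_mul _
    · exact ((hi1.const_mul _).add (hi1.const_mul _)).sub (hi2.const_mul _)
    · exact hi3
    · exact (((hi1.const_mul _).add (hi1.const_mul _)).sub (hi2.const_mul _)).add hi3
    · exact hi4.const_mul _
    · exact ((((hi1.const_mul _).add (hi1.const_mul _)).sub (hi2.const_mul _)).add hi3).sub
        (hi4.const_mul _)
    · exact integrable_const _
  have hnn : 0 ≤ ∫ t, (A * ind S t - (∑ w ∈ B, ind (E w δ) t - c)) ^ 2 ∂mu1 :=
    integral_nonneg fun t => sq_nonneg _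
  rw [hint] at hnn
  have hmE : ∑ w ∈ B, m (E w δ) = c := by
    rw [Finset.sum_congr rfl fun w hw => m_E w (hB w hw) δ h0 h1, Finset.sum_const,
      nsmul_eq_mul, hc]
    ring
  have hmEE : ∑ a ∈ B, ∑ b ∈ B, m (E a δ ∩ E b δ) ≤
      c ^ 2 + 2 * δ * ∑ a ∈ B, ∑ b ∈ B, G a b := by
    calc ∑ a ∈ B, ∑ b ∈ B, m (E a δ ∩ E b δ)
        ≤ ∑ a ∈ B, ∑ b ∈ B, (4 * δ ^ 2 + 2 * δ * G a b) :=
          Finset.sum_le_sum fun a ha => Finset.sum_le_sum fun b hb =>
            m_E_inter' a b (hB a ha) (hB b hb) δ h0 h1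
      _ = c ^ 2 + 2 * δ * ∑ a ∈ B, ∑ b ∈ B, G a b := by
          simp only [Finset.sum_add_distrib, Finset.sum_const, nsmul_eq_mul, ← Finset.mul_sum]
          rw [hc]
          ring
  have hmS : m S ≤ 1 := by rw [m_eq]; exact measureReal_le_one
  have hsq : A ^ 2 ≤ 2 * δ * ∑ a ∈ B, ∑ b ∈ B, G a b := by
    rw [hmE] at hnn
    have e : A ^ 2 * m S + 2 * A * c * m S - 2 * A * ∑ w ∈ B, m (S ∩ E w δ) =
        A ^ 2 * m S - 2 * A ^ 2 := by
      have : ∑ w ∈ B, m (S ∩ E w δ) = A + c * m S := by rw [hA]; ring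
      rw [this]; ring
    rw [e] at hnn
    have h2 : A ^ 2 * m S ≤ A ^ 2 := mul_le_of_le_one_right (sq_nonneg _) hmS
    nlinarith
  have hfin : A ≤ Real.sqrt (2 * δ * ∑ a ∈ B, ∑ b ∈ B, G a b) := Real.le_sqrt_of_sq_le hsq
  linarith

end LRL
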