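import Pool.Agent.MP_4eca2d_nt.A3
import Pool.Agent.MP_4eca2d_nt.B1
set_option autoImplicit false

open MeasureTheory Finset

namespace LRL


lemma key_measurable_nn : Measurable nn := by
  unfold nn
  have h : Measurable (fun x : ℝ => ((round x : ℤ) : ℝ)) := by
    have : (fun x : ℝ => ((round x : ℤ) : ℝ)) = fun x : ℝ => ((⌊x + 1 / 2⌋ : ℤ) : ℝ) := by
      funext x; rw [round_eq]
    rw [this]
    exact (measurable_from_top.comp (Int.measurable_floor.comp (measurable_id.add_const _)))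
  exact (measurable_id.sub h).abs

lemma key_measurable_Av (U : Finset ℕ) (δ : ℝ) : MeasurableSet (Av U δ) := by
  have : Av U δ = ⋂ u ∈ U, {t : ℝ | δ ≤ nn (t * u)} := by
    ext t; simp [Av]
  rw [this]
  refine Finset.measurableSet_biInter U (fun u _ => ?_)
  exact measurableSet_le measurable_const (key_measurable_nn.comp (measurable_id.mul_const _))

lemma G_nonneg' (a b : ℕ) : 0 ≤ G a b := by
  unfold G; positivity

theorem key (V U B : Finset ℕ) (hU : U ⊆ V) (hB : B ⊆ V) (hV : ∀ v ∈ V, 0 < v) (n : ℕ)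
    (hn : 1 ≤ n) (hcard : V.card ≤ n) (L Γ : ℝ) (hL : 1 ≤ L) (hΓ0 : 0 ≤ Γ)
    (hUB : ∀ u ∈ U, ∀ w ∈ B, L * u ≤ (w : ℝ))
    (hΓ : ∑ a ∈ V, ∑ b ∈ V, G a b ≤ Γ * n)
    (hρ : Real.sqrt L / ((n : ℝ) + 1) ≤ 1 / 2) :
    ∑ w ∈ B, m (Av U (1 / ((n : ℝ) + 1)) ∩ E w (1 / ((n : ℝ) + 1)))
      ≤ 2 / ((n : ℝ) + 1) * B.card * m (Av U (1 / ((n : ℝ) + 1))) + KE Γ L := by
  set s := Real.sqrt L with hs
  have hs1 : 1 ≤ s := by rw [hs]; exact Real.one_le_sqrt.2 hL
  have hs0 : 0 < s := by linarith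
  have hss : s * s = L := Real.mul_self_sqrt (by linarith)
  have hn1 : (0 : ℝ) < (n : ℝ) + 1 := by positivity
  set d := 1 / ((n : ℝ) + 1) with hd
  have hd0 : 0 < d := by positivity
  have hdn : d * n ≤ 1 := by
    rw [hd, div_mul_eq_mul_div, one_mul, div_le_one hn1]; linarith
  have hnR : (0 : ℝ) ≤ n := by positivity
  have hsd : s * d ≤ 1 / 2 := by
    have : s * d = s / ((n : ℝ) + 1) := by rw [hd]; ring
    rw [this]; exact hρ
  have hdsd : d ≤ s * d := by nlinarith
  have hsd0 : 0 < s * d := by positivity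
  have hUpos : ∀ u ∈ U, 0 < u := fun u hu => hV u (hU hu)
  have hBpos : ∀ w ∈ B, 0 < w := fun w hw => hV w (hB hw)
  have hratio : d / (s * d) = 1 / s := by field_simp
  -- step 1
  have h1 : ∑ w ∈ B, m (Av U d ∩ E w d) ≤
      ∑ w ∈ B, ((1 / s) * m (Av U d ∩ E w (s * d))
        + (4 * d / w) * ∑ u ∈ U, (2 * (s * d) * u + Nat.gcd u w)) := by
    apply Finset.sum_le_sum
    intro w hw
    have := compare U hUpos w (hBpos w hw) d (s * d) hd0 hdsd hsd
    rwa [hratio] at this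
  -- second moment
  have h2 := secmom B hBpos (s * d) hsd0 hsd (Av U d) (key_measurable_Av U d)
  -- bound of the GCD sum on B
  have hGB : ∑ a ∈ B, ∑ b ∈ B, G a b ≤ Γ * n := by
    refine le_trans ?_ hΓ
    calc ∑ a ∈ B, ∑ b ∈ B, G a b ≤ ∑ a ∈ B, ∑ b ∈ V, G a b :=
          Finset.sum_le_sum (fun a _ => Finset.sum_le_sum_of_subset_of_nonneg hB
            (fun b _ _ => G_nonneg' a b))
      _ ≤ ∑ a ∈ V, ∑ b ∈ V, G a b :=
          Finset.sum_le_sum_of_subset_of_nonneg hB
            (fun a _ _ => Finset.sum_nonneg (fun b _ => G_nonneg' a b))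
  have hGUB : ∑ w ∈ B, ∑ u ∈ U, G u w ≤ Γ * n := by
    rw [Finset.sum_comm]
    refine le_trans ?_ hΓ
    calc ∑ a ∈ U, ∑ b ∈ B, G a b ≤ ∑ a ∈ U, ∑ b ∈ V, G a b :=
          Finset.sum_le_sum (fun a _ => Finset.sum_le_sum_of_subset_of_nonneg hB
            (fun b _ _ => G_nonneg' a b))
      _ ≤ ∑ a ∈ V, ∑ b ∈ V, G a b :=
          Finset.sum_le_sum_of_subset_of_nonneg hU
            (fun a _ _ => Finset.sum_nonneg (fun b _ => G_nonneg' a b))
  have hsq : (1 / s) * Real.sqrt (2 * (s * d) * ∑ a ∈ B, ∑ b ∈ B, G a b)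
      ≤ Real.sqrt (2 * Γ / s) := by
    have e1 : (1 / s) = Real.sqrt (1 / (s * s)) := by
      rw [Real.sqrt_div zero_le_one, Real.sqrt_one, Real.sqrt_mul_self hs0.le]
    rw [e1, ← Real.sqrt_mul (by positivity)]
    apply Real.sqrt_le_sqrt
    have h3 : d * ∑ a ∈ B, ∑ b ∈ B, G a b ≤ Γ := by
      calc d * ∑ a ∈ B, ∑ b ∈ B, G a b ≤ d * (Γ * n) := mul_le_mul_of_nonneg_left hGB hd0.le
        _ = Γ * (d * n) := by ring
        _ ≤ Γ * 1 := mul_le_mul_of_nonneg_left hdn hΓ0
        _ = Γ := mul_one _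
    calc 1 / (s * s) * (2 * (s * d) * ∑ a ∈ B, ∑ b ∈ B, G a b)
        = (2 / s) * (d * ∑ a ∈ B, ∑ b ∈ B, G a b) := by field_simp
      _ ≤ (2 / s) * Γ := mul_le_mul_of_nonneg_left h3 (by positivity)
      _ = 2 * Γ / s := by ring
  -- the error terms
  have hterm : ∀ w ∈ B, (4 * d / w) * ∑ u ∈ U, (2 * (s * d) * u + Nat.gcd u w) ≤
      ∑ u ∈ U, (8 * d ^ 2 * (1 / s)) + ∑ u ∈ U, (4 * d / s) * G u w := by
    intro w hw
    have hwR : (0 : ℝ) < w := by exact_mod_cast hBpos w hw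
    rw [Finset.mul_sum, ← Finset.sum_add_distrib]
    apply Finset.sum_le_sum
    intro u hu
    have huR : (0 : ℝ) < u := by exact_mod_cast hUpos u hu
    have huw := hUB u hu w hw
    rw [mul_add]
    apply add_le_add
    · have h4 : (u : ℝ) / w ≤ 1 / (s * s) := by
        rw [div_le_div_iff₀ hwR (by positivity), hss]
        linarith
      calc 4 * d / w * (2 * (s * d) * u) = 8 * d ^ 2 * s * ((u : ℝ) / w) := by
            field_simp; ring
        _ ≤ 8 * d ^ 2 * s * (1 / (s * s)) := mul_le_mul_of_nonneg_left h4 (by positivity)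
        _ = 8 * d ^ 2 * (1 / s) := by field_simp
    · have h5 : s * Real.sqrt ((u : ℝ) * w) ≤ w := by
        have h6 : s = Real.sqrt L := hs
        rw [h6, ← Real.sqrt_mul (by linarith)]
        calc Real.sqrt (L * ((u : ℝ) * w)) ≤ Real.sqrt ((w : ℝ) * w) := by
              apply Real.sqrt_le_sqrt
              nlinarith
          _ = w := Real.sqrt_mul_self hwR.le
      have h7 : 0 < Real.sqrt ((u : ℝ) * w) := Real.sqrt_pos.2 (by positivity)
      have h8 : (Nat.gcd u w : ℝ) / w ≤ G u w / s := by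
        unfold G
        rw [div_div]
        apply div_le_div_of_nonneg_left (by positivity) (by positivity)
        rw [mul_comm]; exact h5
      calc 4 * d / w * (Nat.gcd u w : ℝ) = 4 * d * ((Nat.gcd u w : ℝ) / w) := by ring
        _ ≤ 4 * d * (G u w / s) := mul_le_mul_of_nonneg_left h8 (by positivity)
        _ = (4 * d / s) * G u w := by ring
  have hUcard : (U.card : ℝ) ≤ n := by
    exact_mod_cast (Finset.card_le_card hU).trans hcard
  have hBcard : (B.card : ℝ) ≤ n := by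
    exact_mod_cast (Finset.card_le_card hB).trans hcard
  have herr : ∑ w ∈ B, (4 * d / w) * ∑ u ∈ U, (2 * (s * d) * u + Nat.gcd u w) ≤
      8 / s + 4 * Γ / s := by
    calc ∑ w ∈ B, (4 * d / w) * ∑ u ∈ U, (2 * (s * d) * u + Nat.gcd u w)
        ≤ ∑ w ∈ B, (∑ u ∈ U, (8 * d ^ 2 * (1 / s)) + ∑ u ∈ U, (4 * d / s) * G u w) :=
          Finset.sum_le_sum hterm
      _ = B.card * (U.card * (8 * d ^ 2 * (1 / s))) + (4 * d / s) * ∑ w ∈ B, ∑ u ∈ U, G u w := by
          rw [Finset.sum_add_distrib]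
          simp only [Finset.sum_const, nsmul_eq_mul, Finset.mul_sum]
      _ ≤ 8 / s + 4 * Γ / s := by
          apply add_le_add
          · have h9 : (B.card : ℝ) * U.card ≤ n * n :=
              mul_le_mul hBcard hUcard (by positivity) hnR
            have h10 : (d * n) * (d * n) ≤ 1 := by
              have : 0 ≤ d * n := by positivity
              nlinarith
            calc (B.card : ℝ) * (U.card * (8 * d ^ 2 * (1 / s)))
                = (B.card * U.card) * (8 * d ^ 2 / s) := by ring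
              _ ≤ (n * n) * (8 * d ^ 2 / s) := mul_le_mul_of_nonneg_right h9 (by positivity)
              _ = ((d * n) * (d * n)) * (8 / s) := by ring
              _ ≤ 1 * (8 / s) := mul_le_mul_of_nonneg_right h10 (by positivity)
              _ = 8 / s := one_mul _
          · calc (4 * d / s) * ∑ w ∈ B, ∑ u ∈ U, G u w ≤ (4 * d / s) * (Γ * n) :=
                  mul_le_mul_of_nonneg_left hGUB (by positivity)
              _ = (4 * Γ / s) * (d * n) := by ring
              _ ≤ (4 * Γ / s) * 1 := mul_le_mul_of_nonneg_left hdn (by positivity)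
              _ = 4 * Γ / s := mul_one _
  calc ∑ w ∈ B, m (Av U d ∩ E w d)
      ≤ ∑ w ∈ B, ((1 / s) * m (Av U d ∩ E w (s * d))
        + (4 * d / w) * ∑ u ∈ U, (2 * (s * d) * u + Nat.gcd u w)) := h1
    _ = (1 / s) * ∑ w ∈ B, m (Av U d ∩ E w (s * d))
        + ∑ w ∈ B, (4 * d / w) * ∑ u ∈ U, (2 * (s * d) * u + Nat.gcd u w) := by
        rw [Finset.sum_add_distrib, Finset.mul_sum]
    _ ≤ (1 / s) * (2 * (s * d) * B.card * m (Av U d)
      + Real.sqrt (2 * (s * d) * ∑ a ∈ B, ∑ b ∈ B, G a b)) + (8 / s + 4 * Γ / s) :=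
        add_le_add (mul_le_mul_of_nonneg_left h2 (by positivity)) herr
    _ = 2 * d * B.card * m (Av U d) + (1 / s) * Real.sqrt (2 * (s * d) * ∑ a ∈ B, ∑ b ∈ B, G a b)
        + (8 / s + 4 * Γ / s) := by
        field_simp
    _ ≤ 2 * d * B.card * m (Av U d) + Real.sqrt (2 * Γ / s) + (8 / s + 4 * Γ / s) := by
        linarith
    _ = 2 / ((n : ℝ) + 1) * B.card * m (Av U d) + KE Γ L := by
        unfold KE
        rw [← hs, hd]
        ring

end LRL
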