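import Pool.Agent.MP_4eca2d_nt.A3
set_option autoImplicit false

open MeasureTheory Finset

namespace LRL


theorem lgt_fin (S : Set ℝ) : volume (S ∩ Set.Ico 0 1) ≠ ⊤ := by
  refine ne_top_of_le_ne_top ?_ (measure_mono Set.inter_subset_right)
  simp

theorem lgt_mono {S T : Set ℝ} (h : S ⊆ T) : m S ≤ m T :=
  ENNReal.toReal_mono (lgt_fin T) (measure_mono (Set.inter_subset_inter_left _ h))

theorem lgt_nonneg (S : Set ℝ) : 0 ≤ m S := ENNReal.toReal_nonneg

theorem lgt_union (S T : Set ℝ) : m (S ∪ T) ≤ m S + m T := by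
  unfold m
  rw [← ENNReal.toReal_add (lgt_fin S) (lgt_fin T), Set.union_inter_distrib_right]
  exact ENNReal.toReal_mono (ENNReal.add_ne_top.2 ⟨lgt_fin S, lgt_fin T⟩) (measure_union_le _ _)

theorem lgt_biUnion (B : Finset ℕ) (f : ℕ → Set ℝ) : m (⋃ w ∈ B, f w) ≤ ∑ w ∈ B, m (f w) := by
  classical
  induction B using Finset.induction_on with
  | empty => simp [m]
  | insert a s ha ih =>
    rw [Finset.set_biUnion_insert, Finset.sum_insert ha]
    exact (lgt_union _ _).trans (add_le_add le_rfl ih)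

/-- B4 (removing a block; union bound), from A4 and measurability. -/
theorem m_Av_union (U B : Finset ℕ) (hU : ∀ u ∈ U, 0 < u) (hB : ∀ w ∈ B, 0 < w) (δ : ℝ)
    (h0 : 0 < δ) (h1 : δ ≤ 1 / 2) :
    m (Av U δ) - ∑ w ∈ B, m (Av U δ ∩ E w δ) ≤ m (Av (U ∪ B) δ) ∧
    m (Av U δ) ≤ m (Av (U ∪ B) δ) + 2 * δ * B.card := by
  have hsub : Av U δ ⊆ Av (U ∪ B) δ ∪ ⋃ w ∈ B, (Av U δ ∩ E w δ) := by
    intro t ht
    by_cases h : t ∈ Av (U ∪ B) δ
    · exact Or.inl h
    · right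
      have h' : ∃ u ∈ U ∪ B, nn (t * u) < δ := by
        by_contra hcon
        push Not at hcon
        exact h hcon
      obtain ⟨u, hu, hu'⟩ := h'
      rcases Finset.mem_union.1 hu with hu1 | hu1
      · exact absurd (ht u hu1) (not_le.2 hu')
      · simp only [Set.mem_iUnion]
        exact ⟨u, hu1, ht, hu'⟩
  have h2 : m (Av U δ) ≤ m (Av (U ∪ B) δ) + ∑ w ∈ B, m (Av U δ ∩ E w δ) :=
    ((lgt_mono hsub).trans (lgt_union _ _)).trans (add_le_add le_rfl (lgt_biUnion _ _))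
  have h3 : ∑ w ∈ B, m (Av U δ ∩ E w δ) ≤ 2 * δ * B.card := by
    calc ∑ w ∈ B, m (Av U δ ∩ E w δ) ≤ ∑ w ∈ B, 2 * δ := by
          refine Finset.sum_le_sum (fun w hw => ?_)
          rw [← m_E w (hB w hw) δ h0 h1]
          exact lgt_mono Set.inter_subset_right
      _ = 2 * δ * B.card := by rw [Finset.sum_const, nsmul_eq_mul]; ring
  constructor <;> linarith

/-- B3 (light window), from A3 with `δ1 = 1/2` applied to `U'` (then `E w (1/2)` is almost
everything), and A4 for `m (Av U') ≤ m (Av U) + 2 δ0 |U \ U'|`. -/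
theorem light (U U' B : Finset ℕ) (hU' : U' ⊆ U) (hU : ∀ u ∈ U, 0 < u) (hB : ∀ w ∈ B, 0 < w)
    (n : ℕ) (hn : 1 ≤ n) (hcard : U'.card ≤ n)
    (hfar : ∀ u ∈ U', ∀ w ∈ B, (n : ℝ) ^ 2 * u ≤ (w : ℝ)) :
    ∑ w ∈ B, m (Av U (1 / ((n : ℝ) + 1)) ∩ E w (1 / ((n : ℝ) + 1)))
      ≤ 2 / ((n : ℝ) + 1) * B.card *
        (m (Av U (1 / ((n : ℝ) + 1))) + 2 / ((n : ℝ) + 1) * (U \ U').card + 4 / n) := by
  have hn' : (1 : ℝ) ≤ n := by exact_mod_cast hn
  obtain ⟨δ, hδ⟩ : ∃ δ : ℝ, δ = 1 / ((n : ℝ) + 1) := ⟨_, rfl⟩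
  have hδ0 : 0 < δ := by rw [hδ]; positivity
  have hδ1 : δ ≤ 1 / 2 := by
    rw [hδ]
    exact one_div_le_one_div_of_le (by norm_num) (by linarith)
  have e2 : 2 / ((n : ℝ) + 1) = 2 * δ := by rw [hδ]; ring
  rw [e2, ← hδ]
  have hU1 : m (Av U' δ) ≤ m (Av U δ) + 2 * δ * (U \ U').card := by
    have h := (m_Av_union U' (U \ U') (fun u hu => hU u (hU' hu))
      (fun w hw => hU w (Finset.mem_sdiff.1 hw).1) δ hδ0 hδ1).2
    rwa [Finset.union_sdiff_of_subset hU'] at h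
  have hAv : Av U δ ⊆ Av U' δ := fun t ht u hu => ht u (hU' hu)
  have hw1 : ∀ w ∈ B, m (Av U δ ∩ E w δ) ≤
      2 * δ * (m (Av U δ) + 2 * δ * (U \ U').card + 4 / n) := by
    intro w hw
    have hw0 : (0 : ℝ) < w := by exact_mod_cast hB w hw
    have h1 : m (Av U δ ∩ E w δ) ≤ m (Av U' δ ∩ E w δ) :=
      lgt_mono (Set.inter_subset_inter_left _ hAv)
    have h2 := compare U' (fun u hu => hU u (hU' hu)) w (hB w hw) δ (1 / 2) hδ0 hδ1 le_rfl
    have h3 : m (Av U' δ ∩ E w (1 / 2)) ≤ m (Av U' δ) := lgt_mono Set.inter_subset_left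
    have h4 : ∑ u ∈ U', (2 * (1 / 2 : ℝ) * u + Nat.gcd u w) ≤ 2 * (w / n) := by
      calc ∑ u ∈ U', (2 * (1 / 2 : ℝ) * u + Nat.gcd u w)
          ≤ ∑ u ∈ U', 2 * ((w : ℝ) / n ^ 2) := by
            refine Finset.sum_le_sum (fun u hu => ?_)
            have a1 := hfar u hu w hw
            have a2 : (u : ℝ) ≤ w / n ^ 2 := by
              rw [le_div_iff₀ (by positivity)]
              linarith
            have a3 : (Nat.gcd u w : ℝ) ≤ u := by
              exact_mod_cast Nat.gcd_le_left w (hU u (hU' hu))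
            linarith
        _ = U'.card * (2 * ((w : ℝ) / n ^ 2)) := by rw [Finset.sum_const, nsmul_eq_mul]
        _ ≤ n * (2 * ((w : ℝ) / n ^ 2)) := by
            refine mul_le_mul_of_nonneg_right ?_ (by positivity)
            exact_mod_cast hcard
        _ = 2 * (w / n) := by field_simp
    have h5 : 4 * δ / w * ∑ u ∈ U', (2 * (1 / 2 : ℝ) * u + Nat.gcd u w) ≤ 2 * δ * (4 / n) := by
      calc 4 * δ / w * ∑ u ∈ U', (2 * (1 / 2 : ℝ) * u + Nat.gcd u w)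
          ≤ 4 * δ / w * (2 * (w / n)) := mul_le_mul_of_nonneg_left h4 (by positivity)
        _ = 2 * δ * (4 / n) := by field_simp; try norm_num
    have h6 : δ / (1 / 2) * m (Av U' δ ∩ E w (1 / 2)) ≤ 2 * δ * m (Av U' δ) := by
      have : δ / (1 / 2) = 2 * δ := by ring
      rw [this]
      exact mul_le_mul_of_nonneg_left h3 (by positivity)
    have h7 : 2 * δ * m (Av U' δ) ≤ 2 * δ * (m (Av U δ) + 2 * δ * (U \ U').card) :=
      mul_le_mul_of_nonneg_left hU1 (by positivity)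
    have h8 : 2 * δ * (m (Av U δ) + 2 * δ * (U \ U').card + 4 / n)
        = 2 * δ * (m (Av U δ) + 2 * δ * (U \ U').card) + 2 * δ * (4 / n) := by ring
    rw [h8]
    linarith
  calc ∑ w ∈ B, m (Av U δ ∩ E w δ)
      ≤ ∑ w ∈ B, 2 * δ * (m (Av U δ) + 2 * δ * (U \ U').card + 4 / n) := Finset.sum_le_sum hw1
    _ = 2 * δ * B.card * (m (Av U δ) + 2 * δ * (U \ U').card + 4 / n) := by
        rw [Finset.sum_const, nsmul_eq_mul]; ring

end LRL
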