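import Pool.Agent.MP_4eca2d_nt.Defs
set_option autoImplicit false

open MeasureTheory Finset

namespace LRL

/-- C1: divisor bound. -/
theorem divisor_bound (θ : ℝ) (hθ : 0 < θ) :
    ∃ C : ℝ, 1 ≤ C ∧ ∀ k : ℕ, 1 ≤ k → ((Nat.divisors k).card : ℝ) ≤ C * (k : ℝ) ^ θ := by
  classical
  have hlog : 0 < Real.log 2 := Real.log_pos (by norm_num)
  set K : ℝ := max 1 (1 / (θ * Real.log 2)) with hK
  have hK1 : 1 ≤ K := le_max_left _ _
  have hK2 : 1 ≤ K * (θ * Real.log 2) := by
    have h : 1 / (θ * Real.log 2) ≤ K := le_max_right _ _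
    have hpos : 0 < θ * Real.log 2 := mul_pos hθ hlog
    calc (1 : ℝ) = 1 / (θ * Real.log 2) * (θ * Real.log 2) := by field_simp
      _ ≤ K * (θ * Real.log 2) := mul_le_mul_of_nonneg_right h hpos.le
  set N : ℕ := ⌈(2 : ℝ) ^ (1 / θ)⌉₊ with hN
  refine ⟨K ^ N, one_le_pow₀ hK1, ?_⟩
  intro k hk
  have hk0 : k ≠ 0 := by omega
  -- local factor bound
  have hloc : ∀ p ∈ k.primeFactors, ((k.factorization p + 1 : ℕ) : ℝ)
      ≤ (if p < N then K else 1) * ((p : ℝ) ^ (k.factorization p)) ^ θ := by
    intro p hp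
    have hpp : p.Prime := Nat.prime_of_mem_primeFactors hp
    have hp2 : (2 : ℝ) ≤ p := by exact_mod_cast hpp.two_le
    have hp0 : (0 : ℝ) < p := by linarith
    set a : ℕ := k.factorization p
    have hpow : ((p : ℝ) ^ a) ^ θ = (p : ℝ) ^ (θ * a) := by
      rw [← Real.rpow_natCast, ← Real.rpow_mul hp0.le, mul_comm]
    rw [hpow]
    by_cases hpN : p < N
    · rw [if_pos hpN]
      have h1 : (2 : ℝ) ^ (θ * a) ≤ (p : ℝ) ^ (θ * a) :=
        Real.rpow_le_rpow (by norm_num) hp2 (by positivity)
      have h2 : 1 + θ * a * Real.log 2 ≤ (2 : ℝ) ^ (θ * a) := by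
        rw [Real.rpow_def_of_pos (by norm_num : (0 : ℝ) < 2)]
        have := Real.add_one_le_exp (Real.log 2 * (θ * a))
        linarith
      have h3 : ((a + 1 : ℕ) : ℝ) ≤ K * (1 + θ * a * Real.log 2) := by
        push_cast
        have : (a : ℝ) * 1 ≤ a * (K * (θ * Real.log 2)) :=
          mul_le_mul_of_nonneg_left hK2 (Nat.cast_nonneg a)
        nlinarith
      calc ((a + 1 : ℕ) : ℝ) ≤ K * (1 + θ * a * Real.log 2) := h3
        _ ≤ K * (p : ℝ) ^ (θ * a) := by
            apply mul_le_mul_of_nonneg_left (h2.trans h1) (by linarith)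
    · rw [if_neg hpN, one_mul]
      push Not at hpN
      have h0 : (2 : ℝ) ^ (1 / θ) ≤ p := by
        calc (2 : ℝ) ^ (1 / θ) ≤ (N : ℝ) := Nat.le_ceil _
          _ ≤ p := by exact_mod_cast hpN
      have h1 : (2 : ℝ) ≤ (p : ℝ) ^ θ := by
        calc (2 : ℝ) = ((2 : ℝ) ^ (1 / θ)) ^ θ := by
              rw [← Real.rpow_mul (by norm_num), one_div, inv_mul_cancel₀ hθ.ne', Real.rpow_one]
          _ ≤ (p : ℝ) ^ θ := Real.rpow_le_rpow (by positivity) h0 hθ.le
      rw [Real.rpow_mul hp0.le, Real.rpow_natCast]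
      have h2 : (2 : ℝ) ^ a ≤ ((p : ℝ) ^ θ) ^ a := pow_le_pow_left₀ (by norm_num) h1 a
      have h3 : a + 1 ≤ 2 ^ a := Nat.lt_two_pow_self
      have h4 : ((a + 1 : ℕ) : ℝ) ≤ (2 : ℝ) ^ a := by exact_mod_cast h3
      exact h4.trans h2
  rw [Nat.card_divisors hk0]
  push_cast
  calc ∏ p ∈ k.primeFactors, ((k.factorization p : ℝ) + 1)
      ≤ ∏ p ∈ k.primeFactors, ((if p < N then K else 1) * ((p : ℝ) ^ (k.factorization p)) ^ θ) := by
        apply Finset.prod_le_prod
        · intro p _; positivity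
        · intro p hp
          have := hloc p hp
          push_cast at this
          exact this
    _ = (∏ p ∈ k.primeFactors, (if p < N then K else 1)) * (k : ℝ) ^ θ := by
        rw [Finset.prod_mul_distrib]
        congr 1
        rw [Real.finsetProd_rpow _ _ (fun p _ => by positivity)]
        congr 1
        have := Nat.prod_factorization_pow_eq_self hk0
        rw [Finsupp.prod, Nat.support_factorization] at this
        calc ∏ p ∈ k.primeFactors, (p : ℝ) ^ (k.factorization p)
            = ((∏ p ∈ k.primeFactors, p ^ (k.factorization p) : ℕ) : ℝ) := by push_cast; rfl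
          _ = (k : ℝ) := by rw [this]
    _ ≤ K ^ N * (k : ℝ) ^ θ := by
        apply mul_le_mul_of_nonneg_right _ (by positivity)
        rw [Finset.prod_ite, Finset.prod_const, Finset.prod_const_one, mul_one]
        apply pow_le_pow_right₀ hK1
        calc (k.primeFactors.filter (fun p => p < N)).card ≤ (Finset.range N).card := by
              apply Finset.card_le_card
              intro p hp
              rw [Finset.mem_filter] at hp
              exact Finset.mem_range.2 hp.2
          _ = N := Finset.card_range N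

end LRL
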