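import Pool.Agent.MP_4eca2d_nt.C1
set_option autoImplicit false

open MeasureTheory Finset

namespace LRL


theorem exists_z (a b c : ℕ) (ha : 0 < a) (hb : 0 < b) (hc : 0 < c) :
    ∃ z : ℕ, 1 ≤ z ∧ z * (Nat.gcd a c * Nat.gcd c b) = c * Nat.gcd a b ∧
      (a / Nat.gcd a b) * z = (a / Nat.gcd a c) * (c / Nat.gcd c b) ∧
      (b / Nat.gcd a b) * z = (c / Nat.gcd a c) * (b / Nat.gcd c b) := by
  have hg : 0 < Nat.gcd a b := Nat.gcd_pos_of_pos_left _ ha
  have hg1 : 0 < Nat.gcd a c := Nat.gcd_pos_of_pos_left _ ha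
  have hg2 : 0 < Nat.gcd c b := Nat.gcd_pos_of_pos_left _ hc
  have hdvd : Nat.gcd a c * Nat.gcd c b ∣ c * Nat.gcd a b := by
    rw [← Nat.gcd_mul_left c a b]
    refine Nat.dvd_gcd ?_ ?_
    · rw [mul_comm c a]
      exact Nat.mul_dvd_mul (Nat.gcd_dvd_left _ _) (Nat.gcd_dvd_left _ _)
    · exact Nat.mul_dvd_mul (Nat.gcd_dvd_right _ _) (Nat.gcd_dvd_right _ _)
  obtain ⟨z, hz⟩ := hdvd
  have hzpos : 0 < z := by
    rcases Nat.eq_zero_or_pos z with h | h
    · exfalso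
      rw [h, mul_zero] at hz
      have : 0 < c * Nat.gcd a b := Nat.mul_pos hc hg
      omega
    · exact h
  have e1 : Nat.gcd a b * (a / Nat.gcd a b) = a := Nat.mul_div_cancel' (Nat.gcd_dvd_left _ _)
  have e2 : Nat.gcd a b * (b / Nat.gcd a b) = b := Nat.mul_div_cancel' (Nat.gcd_dvd_right _ _)
  have e3 : Nat.gcd a c * (a / Nat.gcd a c) = a := Nat.mul_div_cancel' (Nat.gcd_dvd_left _ _)
  have e4 : Nat.gcd a c * (c / Nat.gcd a c) = c := Nat.mul_div_cancel' (Nat.gcd_dvd_right _ _)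
  have e5 : Nat.gcd c b * (c / Nat.gcd c b) = c := Nat.mul_div_cancel' (Nat.gcd_dvd_left _ _)
  have e6 : Nat.gcd c b * (b / Nat.gcd c b) = b := Nat.mul_div_cancel' (Nat.gcd_dvd_right _ _)
  refine ⟨z, hzpos, ?_, ?_, ?_⟩
  · rw [mul_comm]; exact hz.symm
  · have hpos : 0 < Nat.gcd a b * (Nat.gcd a c * Nat.gcd c b) := by positivity
    apply Nat.eq_of_mul_eq_mul_left hpos
    calc Nat.gcd a b * (Nat.gcd a c * Nat.gcd c b) * ((a / Nat.gcd a b) * z)
        = (Nat.gcd a b * (a / Nat.gcd a b)) * (Nat.gcd a c * Nat.gcd c b * z) := by ring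
      _ = a * (c * Nat.gcd a b) := by rw [e1, ← hz]
      _ = Nat.gcd a b * (a * c) := by ring
      _ = Nat.gcd a b * ((Nat.gcd a c * (a / Nat.gcd a c)) * (Nat.gcd c b * (c / Nat.gcd c b))) := by
          rw [e3, e5]
      _ = _ := by ring
  · have hpos : 0 < Nat.gcd a b * (Nat.gcd a c * Nat.gcd c b) := by positivity
    apply Nat.eq_of_mul_eq_mul_left hpos
    calc Nat.gcd a b * (Nat.gcd a c * Nat.gcd c b) * ((b / Nat.gcd a b) * z)
        = (Nat.gcd a b * (b / Nat.gcd a b)) * (Nat.gcd a c * Nat.gcd c b * z) := by ring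
      _ = b * (c * Nat.gcd a b) := by rw [e2, ← hz]
      _ = Nat.gcd a b * (c * b) := by ring
      _ = Nat.gcd a b * ((Nat.gcd a c * (c / Nat.gcd a c)) * (Nat.gcd c b * (b / Nat.gcd c b))) := by
          rw [e4, e6]
      _ = _ := by ring

/-- C2': height is submultiplicative. -/
theorem ht_le (a b c : ℕ) (ha : 0 < a) (hb : 0 < b) (hc : 0 < c) :
    ht a b ≤ ht a c * ht c b := by
  obtain ⟨z, hz1, -, h1, h2⟩ := exists_z a b c ha hb hc
  unfold ht
  calc (a / Nat.gcd a b) * (b / Nat.gcd a b)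
      ≤ (a / Nat.gcd a b) * (b / Nat.gcd a b) * (z * z) :=
        Nat.le_mul_of_pos_right _ (Nat.mul_pos hz1 hz1)
    _ = ((a / Nat.gcd a b) * z) * ((b / Nat.gcd a b) * z) := by ring
    _ = ((a / Nat.gcd a c) * (c / Nat.gcd c b)) * ((c / Nat.gcd a c) * (b / Nat.gcd c b)) := by
        rw [h1, h2]
    _ = _ := by ring

theorem harm_le (N : ℕ) : ∑ z ∈ Icc 1 N, (1 / (z : ℝ)) ≤ 1 + Real.log N := by
  have h := harmonic_le_one_add_log N
  rw [harmonic_eq_sum_Icc] at h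
  push_cast at h
  simpa [one_div] using h

/-- C2 (composition).  Proof: put `z(c) = c gcd(a,b) / (gcd(a,c) gcd(c,b))`, a positive integer, as
`gcd(a,c) gcd(c,b)` divides `c a` and `c b`.  `G a c * G c b = G a b / z(c)`.  With
`α = a/gcd(a,b)`, `β = b/gcd(a,b)`: `α z = (a/gcd(a,c)) (c/gcd(c,b)) ≤ H²`,
`β z = (c/gcd(a,c)) (b/gcd(c,b)) ≤ H²`, and `c` is determined by the divisor `a/gcd(a,c)` of `α z` and
the divisor `c/gcd(a,c)` of `β z`.  So the sum is at most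
`G a b ∑_{z ≤ H²} d(αz) d(βz) / z ≤ G a b * C₁² H^(4θ₁) (1 + log H²)`. -/
theorem comp_G (θ : ℝ) (hθ : 0 < θ) :
    ∃ C : ℝ, 1 ≤ C ∧ ∀ (H : ℕ), 1 ≤ H → ∀ (V : Finset ℕ), (∀ v ∈ V, 0 < v) →
      ∀ a b : ℕ, 0 < a → 0 < b →
        ∑ c ∈ V.filter (fun c => ht a c ≤ H ∧ ht c b ≤ H), G a c * G c b
          ≤ C * (H : ℝ) ^ θ * G a b := by
  obtain ⟨C1, hC1, hdiv⟩ := divisor_bound (θ / 8) (by positivity)
  refine ⟨C1 ^ 2 * (1 + 4 / θ), ?_, ?_⟩
  · have h1 : 1 ≤ C1 ^ 2 := one_le_pow₀ hC1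
    have h2 : 1 ≤ 1 + 4 / θ := by
      have : 0 < 4 / θ := by positivity
      linarith
    nlinarith
  intro H hH V hV a b ha hb
  classical
  set F := V.filter (fun c => ht a c ≤ H ∧ ht c b ≤ H) with hF
  have hFpos : ∀ c ∈ F, 0 < c := fun c hc => hV c (Finset.mem_filter.mp hc).1
  have hFht : ∀ c ∈ F, ht a c ≤ H ∧ ht c b ≤ H := fun c hc => (Finset.mem_filter.mp hc).2
  -- the function z
  choose! Z hZ1 hZ2 hZ3 hZ4 using (fun c (hc : 0 < c) => exists_z a b c ha hb hc)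
  have hg : 0 < Nat.gcd a b := Nat.gcd_pos_of_pos_left _ ha
  have hα : 0 < a / Nat.gcd a b := Nat.div_pos (Nat.le_of_dvd ha (Nat.gcd_dvd_left _ _)) hg
  have hβ : 0 < b / Nat.gcd a b := Nat.div_pos (Nat.le_of_dvd hb (Nat.gcd_dvd_right _ _)) hg
  have hb1 : ∀ c ∈ F, (a / Nat.gcd a b) * Z c ≤ H ^ 2 ∧ (b / Nat.gcd a b) * Z c ≤ H ^ 2 := by
    intro c hc
    have hc0 := hFpos c hc
    obtain ⟨k1, k2⟩ := hFht c hc
    unfold ht at k1 k2
    have hg1 : 0 < Nat.gcd a c := Nat.gcd_pos_of_pos_left _ ha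
    have hg2 : 0 < Nat.gcd c b := Nat.gcd_pos_of_pos_left _ hc0
    have p1 : 0 < a / Nat.gcd a c := Nat.div_pos (Nat.le_of_dvd ha (Nat.gcd_dvd_left _ _)) hg1
    have p2 : 0 < c / Nat.gcd a c := Nat.div_pos (Nat.le_of_dvd hc0 (Nat.gcd_dvd_right _ _)) hg1
    have p3 : 0 < c / Nat.gcd c b := Nat.div_pos (Nat.le_of_dvd hc0 (Nat.gcd_dvd_left _ _)) hg2
    have p4 : 0 < b / Nat.gcd c b := Nat.div_pos (Nat.le_of_dvd hb (Nat.gcd_dvd_right _ _)) hg2
    have q1 : a / Nat.gcd a c ≤ H := le_trans (Nat.le_mul_of_pos_right _ p2) k1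
    have q2 : c / Nat.gcd a c ≤ H := le_trans (Nat.le_mul_of_pos_left _ p1) k1
    have q3 : c / Nat.gcd c b ≤ H := le_trans (Nat.le_mul_of_pos_right _ p4) k2
    have q4 : b / Nat.gcd c b ≤ H := le_trans (Nat.le_mul_of_pos_left _ p3) k2
    rw [hZ3 c hc0, hZ4 c hc0, pow_two]
    exact ⟨Nat.mul_le_mul q1 q3, Nat.mul_le_mul q2 q4⟩
  have hZmem : ∀ c ∈ F, Z c ∈ Icc 1 (H ^ 2) := by
    intro c hc
    rw [Finset.mem_Icc]
    refine ⟨hZ1 c (hFpos c hc), le_trans (Nat.le_mul_of_pos_left _ hα) (hb1 c hc).1⟩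
  -- G a c * G c b = G a b / Z c
  have hGG : ∀ c ∈ F, G a c * G c b = G a b * (1 / (Z c : ℝ)) := by
    intro c hc
    have hc0 := hFpos c hc
    have haR : (0 : ℝ) < a := by exact_mod_cast ha
    have hbR : (0 : ℝ) < b := by exact_mod_cast hb
    have hcR : (0 : ℝ) < c := by exact_mod_cast hc0
    have hZR : (0 : ℝ) < Z c := by exact_mod_cast (hZ1 c hc0)
    have hz := hZ2 c hc0
    have hzR : (Z c : ℝ) * ((Nat.gcd a c : ℝ) * (Nat.gcd c b : ℝ)) = (c : ℝ) * (Nat.gcd a b : ℝ) := by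
      exact_mod_cast hz
    unfold G
    have hs : Real.sqrt ((a : ℝ) * c) * Real.sqrt ((c : ℝ) * b) = (c : ℝ) * Real.sqrt ((a : ℝ) * b) := by
      rw [← Real.sqrt_mul (by positivity)]
      rw [show (a : ℝ) * c * (c * b) = (c : ℝ) ^ 2 * (a * b) by ring]
      rw [Real.sqrt_mul (by positivity), Real.sqrt_sq hcR.le]
    have hsq : 0 < Real.sqrt ((a : ℝ) * b) := Real.sqrt_pos.mpr (by positivity)
    rw [div_mul_div_comm, hs]
    rw [div_mul_div_comm, mul_one]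
    rw [div_eq_div_iff (by positivity) (by positivity)]
    calc (Nat.gcd a c : ℝ) * (Nat.gcd c b : ℝ) * (Real.sqrt ((a : ℝ) * b) * (Z c : ℝ))
        = ((Z c : ℝ) * ((Nat.gcd a c : ℝ) * (Nat.gcd c b : ℝ))) * Real.sqrt ((a : ℝ) * b) := by ring
      _ = _ := by rw [hzR]; ring
  have hGab : 0 ≤ G a b := by unfold G; positivity
  -- fibers
  have hHR : (1 : ℝ) ≤ H := by exact_mod_cast hH
  have hfib : ∀ z ∈ Icc 1 (H ^ 2), (((F.filter (fun c => Z c = z)).card : ℕ) : ℝ)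
      ≤ C1 ^ 2 * (H : ℝ) ^ (θ / 2) := by
    intro z hz
    rcases Finset.eq_empty_or_nonempty (F.filter (fun c => Z c = z)) with h0 | ⟨c0, hc0⟩
    · rw [h0]; simp; positivity
    have hc0F := (Finset.mem_filter.mp hc0).1
    have hc0Z := (Finset.mem_filter.mp hc0).2
    have hzpos : 0 < z := (Finset.mem_Icc.mp hz).1
    have hbd := hb1 c0 hc0F
    rw [hc0Z] at hbd
    set A := (a / Nat.gcd a b) * z with hA
    set B := (b / Nat.gcd a b) * z with hB
    have hApos : 0 < A := Nat.mul_pos hα hzpos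
    have hBpos : 0 < B := Nat.mul_pos hβ hzpos
    have hcard : (F.filter (fun c => Z c = z)).card ≤ (A.divisors ×ˢ B.divisors).card := by
      apply Finset.card_le_card_of_injOn (fun c => (a / Nat.gcd a c, c / Nat.gcd a c))
      · intro c hc
        have hc' : c ∈ F.filter (fun c => Z c = z) := hc
        have hcF := (Finset.mem_filter.mp hc').1
        have hcZ := (Finset.mem_filter.mp hc').2
        have hcpos := hFpos c hcF
        rw [Finset.mem_coe, Finset.mem_product, Nat.mem_divisors, Nat.mem_divisors]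
        refine ⟨⟨?_, hApos.ne'⟩, ⟨?_, hBpos.ne'⟩⟩
        · rw [hA, ← hcZ, hZ3 c hcpos]; exact Dvd.intro _ rfl
        · rw [hB, ← hcZ, hZ4 c hcpos]; exact Dvd.intro _ rfl
      · intro c hc c' hc' heq
        have hcF := (Finset.mem_filter.mp (Finset.mem_coe.mp hc)).1
        have hcF' := (Finset.mem_filter.mp (Finset.mem_coe.mp hc')).1
        have hcpos := hFpos c hcF
        have hcpos' := hFpos c' hcF'
        simp only [Prod.mk.injEq] at heq
        obtain ⟨e1, e2⟩ := heq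
        have hg1 : 0 < Nat.gcd a c := Nat.gcd_pos_of_pos_left _ ha
        have hg1' : 0 < Nat.gcd a c' := Nat.gcd_pos_of_pos_left _ ha
        have f1 : Nat.gcd a c * (a / Nat.gcd a c) = a := Nat.mul_div_cancel' (Nat.gcd_dvd_left _ _)
        have f1' : Nat.gcd a c' * (a / Nat.gcd a c') = a :=
          Nat.mul_div_cancel' (Nat.gcd_dvd_left _ _)
        have p1 : 0 < a / Nat.gcd a c := Nat.div_pos (Nat.le_of_dvd ha (Nat.gcd_dvd_left _ _)) hg1
        have hgg : Nat.gcd a c = Nat.gcd a c' := by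
          apply Nat.eq_of_mul_eq_mul_right p1
          rw [f1, e1, f1']
        have f2 : Nat.gcd a c * (c / Nat.gcd a c) = c := Nat.mul_div_cancel' (Nat.gcd_dvd_right _ _)
        have f2' : Nat.gcd a c' * (c' / Nat.gcd a c') = c' :=
          Nat.mul_div_cancel' (Nat.gcd_dvd_right _ _)
        rw [← f2, ← f2', e2, hgg]
    have hdA : ((Nat.divisors A).card : ℝ) ≤ C1 * (H : ℝ) ^ (θ / 4) := by
      refine le_trans (hdiv A hApos) ?_
      have hle : (A : ℝ) ≤ (H : ℝ) ^ 2 := by exact_mod_cast hbd.1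
      have : (A : ℝ) ^ (θ / 8) ≤ (H : ℝ) ^ (θ / 4) := by
        calc (A : ℝ) ^ (θ / 8) ≤ ((H : ℝ) ^ 2) ^ (θ / 8) :=
              Real.rpow_le_rpow (by positivity) hle (by positivity)
          _ = (H : ℝ) ^ (θ / 4) := by
              rw [← Real.rpow_natCast, ← Real.rpow_mul (by positivity)]
              congr 1; push_cast; ring
      exact mul_le_mul_of_nonneg_left this (by positivity)
    have hdB : ((Nat.divisors B).card : ℝ) ≤ C1 * (H : ℝ) ^ (θ / 4) := by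
      refine le_trans (hdiv B hBpos) ?_
      have hle : (B : ℝ) ≤ (H : ℝ) ^ 2 := by exact_mod_cast hbd.2
      have : (B : ℝ) ^ (θ / 8) ≤ (H : ℝ) ^ (θ / 4) := by
        calc (B : ℝ) ^ (θ / 8) ≤ ((H : ℝ) ^ 2) ^ (θ / 8) :=
              Real.rpow_le_rpow (by positivity) hle (by positivity)
          _ = (H : ℝ) ^ (θ / 4) := by
              rw [← Real.rpow_natCast, ← Real.rpow_mul (by positivity)]
              congr 1; push_cast; ring
      exact mul_le_mul_of_nonneg_left this (by positivity)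
    rw [Finset.card_product] at hcard
    calc (((F.filter (fun c => Z c = z)).card : ℕ) : ℝ)
        ≤ ((Nat.divisors A).card : ℝ) * ((Nat.divisors B).card : ℝ) := by exact_mod_cast hcard
      _ ≤ (C1 * (H : ℝ) ^ (θ / 4)) * (C1 * (H : ℝ) ^ (θ / 4)) :=
          mul_le_mul hdA hdB (by positivity) (by positivity)
      _ = C1 ^ 2 * ((H : ℝ) ^ (θ / 4) * (H : ℝ) ^ (θ / 4)) := by ring
      _ = C1 ^ 2 * (H : ℝ) ^ (θ / 2) := by
          rw [← Real.rpow_add (by positivity)]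
          congr 2; ring
  have hsum : ∑ c ∈ F, (1 / (Z c : ℝ)) ≤ C1 ^ 2 * (1 + 4 / θ) * (H : ℝ) ^ θ := by
    calc ∑ c ∈ F, (1 / (Z c : ℝ))
        = ∑ z ∈ Icc 1 (H ^ 2), ∑ c ∈ F.filter (fun c => Z c = z), (1 / (Z c : ℝ)) :=
          (Finset.sum_fiberwise_of_maps_to hZmem _).symm
      _ = ∑ z ∈ Icc 1 (H ^ 2), ((F.filter (fun c => Z c = z)).card : ℝ) * (1 / (z : ℝ)) := by
          refine Finset.sum_congr rfl fun z _ => ?_
          rw [Finset.sum_congr rfl (g := fun _ => (1 / (z : ℝ)))]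
          · rw [Finset.sum_const, nsmul_eq_mul]
          · intro c hc
            rw [(Finset.mem_filter.mp hc).2]
      _ ≤ ∑ z ∈ Icc 1 (H ^ 2), (C1 ^ 2 * (H : ℝ) ^ (θ / 2)) * (1 / (z : ℝ)) :=
          Finset.sum_le_sum fun z hz =>
            mul_le_mul_of_nonneg_right (hfib z hz) (by positivity)
      _ = (C1 ^ 2 * (H : ℝ) ^ (θ / 2)) * ∑ z ∈ Icc 1 (H ^ 2), (1 / (z : ℝ)) := by
          rw [Finset.mul_sum]
      _ ≤ (C1 ^ 2 * (H : ℝ) ^ (θ / 2)) * ((1 + 4 / θ) * (H : ℝ) ^ (θ / 2)) := by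
          refine mul_le_mul_of_nonneg_left ?_ (by positivity)
          refine le_trans (harm_le _) ?_
          have h1 : (1 : ℝ) ≤ (H : ℝ) ^ (θ / 2) := Real.one_le_rpow hHR (by positivity)
          have h2 : Real.log (H : ℝ) ≤ (H : ℝ) ^ (θ / 2) / (θ / 2) :=
            Real.log_le_rpow_div (by positivity) (by positivity)
          have h3 : Real.log ((H ^ 2 : ℕ) : ℝ) = 2 * Real.log (H : ℝ) := by
            push_cast
            rw [Real.log_pow]; norm_num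
          rw [h3]
          have h4 : (H : ℝ) ^ (θ / 2) / (θ / 2) = 2 / θ * (H : ℝ) ^ (θ / 2) := by
            field_simp
          rw [h4] at h2
          calc 1 + 2 * Real.log (H : ℝ) ≤ (H : ℝ) ^ (θ / 2) + 2 * (2 / θ * (H : ℝ) ^ (θ / 2)) := by
                linarith
            _ = _ := by ring
      _ = C1 ^ 2 * (1 + 4 / θ) * ((H : ℝ) ^ (θ / 2) * (H : ℝ) ^ (θ / 2)) := by ring
      _ = C1 ^ 2 * (1 + 4 / θ) * (H : ℝ) ^ θ := by
          rw [← Real.rpow_add (by positivity)]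
          congr 2; ring
  calc ∑ c ∈ F, G a c * G c b = ∑ c ∈ F, G a b * (1 / (Z c : ℝ)) :=
        Finset.sum_congr rfl hGG
    _ = G a b * ∑ c ∈ F, (1 / (Z c : ℝ)) := by rw [Finset.mul_sum]
    _ ≤ G a b * (C1 ^ 2 * (1 + 4 / θ) * (H : ℝ) ^ θ) := mul_le_mul_of_nonneg_left hsum hGab
    _ = _ := by ring

end LRL
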