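import Pool.Agent.MP_4eca2d_nt.C2
set_option autoImplicit false

open MeasureTheory Finset

namespace LRL


namespace C3

theorem G_nonneg (a b : ℕ) : 0 ≤ G a b := by
  unfold G; positivity

theorem G_symm (a b : ℕ) : G a b = G b a := by
  unfold G; rw [Nat.gcd_comm, mul_comm]

theorem ht_symm (a b : ℕ) : ht a b = ht b a := by
  unfold ht; rw [Nat.gcd_comm, mul_comm]

theorem ht_mul (a b : ℕ) : ht a b * (Nat.gcd a b) ^ 2 = a * b := by
  unfold ht
  have h1 := Nat.div_mul_cancel (Nat.gcd_dvd_left a b)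
  have h2 := Nat.div_mul_cancel (Nat.gcd_dvd_right a b)
  calc (a / Nat.gcd a b) * (b / Nat.gcd a b) * (Nat.gcd a b) ^ 2
      = (a / Nat.gcd a b * Nat.gcd a b) * (b / Nat.gcd a b * Nat.gcd a b) := by ring
    _ = a * b := by rw [h1, h2]

/-- a pair of large height has small weight -/
theorem G_le (a b : ℕ) (ha : 0 < a) (hb : 0 < b) (N : ℕ) (hN : 0 < N) (h : N ^ 2 ≤ ht a b) :
    G a b ≤ 1 / (N : ℝ) := by
  have hab : (0 : ℝ) < (a : ℝ) * b := by positivity
  have hN' : (0 : ℝ) < N := by exact_mod_cast hN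
  unfold G
  rw [div_le_div_iff₀ (Real.sqrt_pos.mpr hab) hN', one_mul]
  apply Real.le_sqrt_of_sq_le
  have h1 : (Nat.gcd a b * N) ^ 2 ≤ a * b := by
    rw [← ht_mul a b]
    calc (Nat.gcd a b * N) ^ 2 = N ^ 2 * (Nat.gcd a b) ^ 2 := by ring
      _ ≤ ht a b * (Nat.gcd a b) ^ 2 := Nat.mul_le_mul_right _ h
  exact_mod_cast h1

theorem ht_pos (a b : ℕ) (ha : 0 < a) (hb : 0 < b) : 0 < ht a b := by
  rcases Nat.eq_zero_or_pos (ht a b) with h | h
  · have := ht_mul a b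
    rw [h, zero_mul] at this
    have h2 : 0 < a * b := Nat.mul_pos ha hb
    omega
  · exact h

theorem G_le_one (a b : ℕ) (ha : 0 < a) (hb : 0 < b) : G a b ≤ 1 := by
  have h := G_le a b ha hb 1 one_pos (by rw [one_pow]; exact ht_pos a b ha hb)
  simpa using h

/-- iterated truncated kernels -/
noncomputable def BB (V : Finset ℕ) (T : ℕ) : ℕ → ℕ → ℕ → ℝ
  | 0, a, b => if ht a b ≤ T then G a b else 0
  | (l + 1), a, b => ∑ c ∈ V, BB V T l a c * BB V T l c b

theorem BB_nonneg (V : Finset ℕ) (T : ℕ) : ∀ l a b, 0 ≤ BB V T l a b := by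
  intro l
  induction l with
  | zero =>
    intro a b
    simp only [BB]
    split_ifs
    · exact G_nonneg a b
    · exact le_refl _
  | succ l ih =>
    intro a b
    simp only [BB]
    exact Finset.sum_nonneg (fun c _ => mul_nonneg (ih a c) (ih c b))

theorem BB_symm (V : Finset ℕ) (T : ℕ) : ∀ l a b, BB V T l a b = BB V T l b a := by
  intro l
  induction l with
  | zero =>
    intro a b
    simp only [BB]
    rw [ht_symm a b, G_symm a b]
  | succ l ih =>
    intro a b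
    simp only [BB]
    apply Finset.sum_congr rfl
    intro c _
    rw [ih a c, ih c b, mul_comm]

theorem BB_zero (V : Finset ℕ) (hV : ∀ v ∈ V, 0 < v) (T : ℕ) :
    ∀ l a b, 0 < a → 0 < b → T ^ (2 ^ l) < ht a b → BB V T l a b = 0 := by
  intro l
  induction l with
  | zero =>
    intro a b _ _ h
    simp only [BB]
    rw [if_neg]
    simpa using h
  | succ l ih =>
    intro a b ha hb h
    simp only [BB]
    apply Finset.sum_eq_zero
    intro c hc
    by_cases h1 : T ^ (2 ^ l) < ht a c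
    · rw [ih a c ha (hV c hc) h1, zero_mul]
    · by_cases h2 : T ^ (2 ^ l) < ht c b
      · rw [ih c b (hV c hc) hb h2, mul_zero]
      · exfalso
        have h3 := ht_le a b c ha hb (hV c hc)
        have h4 : ht a c * ht c b ≤ T ^ (2 ^ l) * T ^ (2 ^ l) :=
          Nat.mul_le_mul (not_lt.mp h1) (not_lt.mp h2)
        have h5 : T ^ (2 ^ l) * T ^ (2 ^ l) = T ^ (2 ^ (l + 1)) := by
          rw [← pow_add]; congr 1; rw [pow_succ]; ring
        omega

/-- the constants -/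
noncomputable def MM (C θ : ℝ) (T : ℕ) : ℕ → ℝ
  | 0 => 1
  | (l + 1) => (MM C θ T l) ^ 2 * (C * ((T ^ (2 ^ l) : ℕ) : ℝ) ^ θ)

theorem MM_nonneg (C θ : ℝ) (hC : 1 ≤ C) (T : ℕ) : ∀ l, 0 ≤ MM C θ T l := by
  intro l
  induction l with
  | zero => simp [MM]
  | succ l _ =>
    simp only [MM]
    have : 0 ≤ ((T ^ (2 ^ l) : ℕ) : ℝ) ^ θ := Real.rpow_nonneg (by positivity) _
    have hC0 : 0 ≤ C := by linarith
    positivity

theorem BB_le (C θ : ℝ) (hC : 1 ≤ C)
    (hcomp : ∀ (H : ℕ), 1 ≤ H → ∀ (V : Finset ℕ), (∀ v ∈ V, 0 < v) →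
      ∀ a b : ℕ, 0 < a → 0 < b →
        ∑ c ∈ V.filter (fun c => ht a c ≤ H ∧ ht c b ≤ H), G a c * G c b
          ≤ C * (H : ℝ) ^ θ * G a b)
    (V : Finset ℕ) (hV : ∀ v ∈ V, 0 < v) (T : ℕ) (hT : 1 ≤ T) :
    ∀ l a b, 0 < a → 0 < b → BB V T l a b ≤ MM C θ T l * G a b := by
  intro l
  induction l with
  | zero =>
    intro a b _ _
    simp only [BB, MM, one_mul]
    split_ifs
    · exact le_refl _
    · exact G_nonneg a b
  | succ l ih =>
    intro a b ha hb
    simp only [BB, MM]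
    have hM := MM_nonneg C θ hC T l
    have h1 : ∑ c ∈ V, BB V T l a c * BB V T l c b
        = ∑ c ∈ V.filter (fun c => ht a c ≤ T ^ (2 ^ l) ∧ ht c b ≤ T ^ (2 ^ l)),
            BB V T l a c * BB V T l c b := by
      symm
      apply Finset.sum_filter_of_ne
      intro c hc hne
      constructor
      · by_contra h
        exact hne (by rw [BB_zero V hV T l a c ha (hV c hc) (not_le.mp h), zero_mul])
      · by_contra h
        exact hne (by rw [BB_zero V hV T l c b (hV c hc) hb (not_le.mp h), mul_zero])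
    rw [h1]
    calc ∑ c ∈ V.filter (fun c => ht a c ≤ T ^ (2 ^ l) ∧ ht c b ≤ T ^ (2 ^ l)),
            BB V T l a c * BB V T l c b
        ≤ ∑ c ∈ V.filter (fun c => ht a c ≤ T ^ (2 ^ l) ∧ ht c b ≤ T ^ (2 ^ l)),
            (MM C θ T l) ^ 2 * (G a c * G c b) := by
          apply Finset.sum_le_sum
          intro c hc
          have hc' := (Finset.mem_filter.mp hc).1
          have e1 := ih a c ha (hV c hc')
          have e2 := ih c b (hV c hc') hb
          calc BB V T l a c * BB V T l c b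
              ≤ (MM C θ T l * G a c) * (MM C θ T l * G c b) :=
                mul_le_mul e1 e2 (BB_nonneg V T l c b) (mul_nonneg hM (G_nonneg a c))
            _ = (MM C θ T l) ^ 2 * (G a c * G c b) := by ring
      _ = (MM C θ T l) ^ 2 *
            ∑ c ∈ V.filter (fun c => ht a c ≤ T ^ (2 ^ l) ∧ ht c b ≤ T ^ (2 ^ l)),
              G a c * G c b := by rw [Finset.mul_sum]
      _ ≤ (MM C θ T l) ^ 2 * (C * ((T ^ (2 ^ l) : ℕ) : ℝ) ^ θ * G a b) := by
          apply mul_le_mul_of_nonneg_left _ (by positivity)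
          exact hcomp (T ^ (2 ^ l)) (Nat.one_le_pow _ _ hT) V hV a b ha hb
      _ = (MM C θ T l) ^ 2 * (C * ((T ^ (2 ^ l) : ℕ) : ℝ) ^ θ) * G a b := by ring

theorem MM_le (C θ : ℝ) (hC : 1 ≤ C) (T : ℕ) (X : ℝ) (hX0 : 0 ≤ X)
    (hX : X ^ 2 = (T : ℝ) ^ θ) :
    ∀ l, C * MM C θ T l ≤ (C * X ^ l) ^ (2 ^ l) := by
  intro l
  have hC0 : 0 ≤ C := by linarith
  induction l with
  | zero => simp [MM]
  | succ l ih =>
    simp only [MM]
    have hM := MM_nonneg C θ hC T l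
    have h1 : ((T ^ (2 ^ l) : ℕ) : ℝ) ^ θ = X ^ (2 ^ (l + 1)) := by
      rw [Nat.cast_pow, ← Real.rpow_natCast, ← Real.rpow_mul (by positivity), mul_comm,
        Real.rpow_mul (by positivity), Real.rpow_natCast, ← hX, ← pow_mul]
      congr 1
      rw [pow_succ]; ring
    rw [h1]
    calc C * (MM C θ T l ^ 2 * (C * X ^ 2 ^ (l + 1)))
        = (C * MM C θ T l) ^ 2 * X ^ 2 ^ (l + 1) := by ring
      _ ≤ ((C * X ^ l) ^ (2 ^ l)) ^ 2 * X ^ 2 ^ (l + 1) := by
          apply mul_le_mul_of_nonneg_right _ (by positivity)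
          exact pow_le_pow_left₀ (by positivity) ih 2
      _ = (C * X ^ (l + 1)) ^ (2 ^ (l + 1)) := by
          have e : ((C * X ^ l) ^ (2 ^ l)) ^ 2 = (C * X ^ l) ^ (2 ^ (l + 1)) := by
            rw [← pow_mul]; congr 1
          rw [e, ← mul_pow]
          congr 1
          rw [pow_succ]; ring

/-- total mass -/
noncomputable def ss (V : Finset ℕ) (T l : ℕ) : ℝ := ∑ a ∈ V, ∑ b ∈ V, BB V T l a b

theorem ss_nonneg (V : Finset ℕ) (T l : ℕ) : 0 ≤ ss V T l :=
  Finset.sum_nonneg (fun a _ => Finset.sum_nonneg (fun b _ => BB_nonneg V T l a b))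

theorem ss_sq (V : Finset ℕ) (T l : ℕ) : (ss V T l) ^ 2 ≤ (V.card : ℝ) * ss V T (l + 1) := by
  have h1 : ss V T l = ∑ c ∈ V, (∑ a ∈ V, BB V T l a c) := by
    unfold ss
    rw [Finset.sum_comm]
  have h2 : (∑ c ∈ V, (∑ a ∈ V, BB V T l a c)) ^ 2
      ≤ (V.card : ℝ) * ∑ c ∈ V, (∑ a ∈ V, BB V T l a c) ^ 2 := by
    exact sq_sum_le_card_mul_sum_sq
  have h3 : ∑ c ∈ V, (∑ a ∈ V, BB V T l a c) ^ 2 = ss V T (l + 1) := by
    unfold ss
    simp only [BB]
    have e : ∀ a ∈ V, ∑ b ∈ V, ∑ c ∈ V, BB V T l a c * BB V T l c b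
        = ∑ c ∈ V, BB V T l a c * ∑ b ∈ V, BB V T l b c := by
      intro a _
      rw [Finset.sum_comm]
      apply Finset.sum_congr rfl
      intro c _
      rw [Finset.mul_sum]
      apply Finset.sum_congr rfl
      intro b _
      rw [BB_symm V T l c b]
    rw [Finset.sum_congr rfl e, Finset.sum_comm]
    apply Finset.sum_congr rfl
    intro c _
    rw [sq, Finset.sum_mul]
  rw [h1]
  rw [h3] at h2
  exact h2

theorem ss_pow (V : Finset ℕ) (T : ℕ) (hV : 0 < V.card) :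
    ∀ l, (V.card : ℝ) * (ss V T 0) ^ (2 ^ l) ≤ (V.card : ℝ) ^ (2 ^ l) * ss V T l := by
  have hN : (0 : ℝ) < V.card := by exact_mod_cast hV
  intro l
  induction l with
  | zero => simp
  | succ l ih =>
    have h0 := ss_nonneg V T 0
    have hl := ss_nonneg V T l
    have h1 : ((V.card : ℝ) * (ss V T 0) ^ (2 ^ l)) ^ 2
        ≤ ((V.card : ℝ) ^ (2 ^ l) * ss V T l) ^ 2 :=
      pow_le_pow_left₀ (by positivity) ih 2
    have h2 : ((V.card : ℝ) ^ (2 ^ l) * ss V T l) ^ 2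
        ≤ (V.card : ℝ) * ((V.card : ℝ) ^ (2 ^ (l + 1)) * ss V T (l + 1)) := by
      calc ((V.card : ℝ) ^ (2 ^ l) * ss V T l) ^ 2
          = (V.card : ℝ) ^ (2 ^ (l + 1)) * (ss V T l) ^ 2 := by
            rw [mul_pow, ← pow_mul, ← pow_succ]
        _ ≤ (V.card : ℝ) ^ (2 ^ (l + 1)) * ((V.card : ℝ) * ss V T (l + 1)) :=
            mul_le_mul_of_nonneg_left (ss_sq V T l) (by positivity)
        _ = _ := by ring
    have h3 : ((V.card : ℝ) * (ss V T 0) ^ (2 ^ l)) ^ 2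
        = (V.card : ℝ) * ((V.card : ℝ) * (ss V T 0) ^ (2 ^ (l + 1))) := by
      rw [mul_pow, ← pow_mul, ← pow_succ]; ring
    rw [h3] at h1
    exact le_of_mul_le_mul_left (h1.trans h2) hN

end C3

open C3 in
theorem gcd_sum (η : ℝ) (hη : 0 < η) :
    ∃ C : ℝ, 1 ≤ C ∧ ∀ V : Finset ℕ, (∀ v ∈ V, 0 < v) →
      ∑ a ∈ V, ∑ b ∈ V, G a b ≤ C * (V.card : ℝ) ^ (1 + η) := by
  -- choice of the depth
  obtain ⟨l, hl⟩ : ∃ l : ℕ, 2 / η ≤ (2 : ℝ) ^ l := by
    obtain ⟨l, hl⟩ := pow_unbounded_of_one_lt (2 / η) (by norm_num : (1 : ℝ) < 2)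
    exact ⟨l, hl.le⟩
  have hθ : 0 < η / (2 * ((l : ℝ) + 1)) := by positivity
  obtain ⟨C, hC, hcomp⟩ := comp_G _ hθ
  set θ : ℝ := η / (2 * ((l : ℝ) + 1)) with hθdef
  refine ⟨C + 1, by linarith, ?_⟩
  intro V hV
  rcases Nat.eq_zero_or_pos V.card with h0 | hpos
  · have : V = ∅ := Finset.card_eq_zero.mp h0
    subst this
    simp
    have : (0:ℝ) ^ (1 + η) = 0 := Real.zero_rpow (by positivity)
    rw [this]; simp
  have hN : (0 : ℝ) < V.card := by exact_mod_cast hpos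
  have hN1 : (1 : ℝ) ≤ V.card := by exact_mod_cast hpos
  set N : ℕ := V.card with hNdef
  set T : ℕ := N ^ 2 with hT
  have hT1 : 1 ≤ T := Nat.one_le_pow _ _ hpos
  have hC0 : 0 < C := by linarith
  -- the truncated sum
  have hXpos : 0 ≤ (N : ℝ) ^ θ := Real.rpow_nonneg hN.le _
  have hX2 : ((N : ℝ) ^ θ) ^ 2 = (T : ℝ) ^ θ := by
    rw [hT, Nat.cast_pow, ← Real.rpow_natCast, ← Real.rpow_natCast, ← Real.rpow_mul hN.le,
      ← Real.rpow_mul hN.le, mul_comm]
  have hMl := MM_le C θ hC T _ hXpos hX2 l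
  have hM0 := MM_nonneg C θ hC T l
  have hMl' : MM C θ T l ≤ (C * ((N : ℝ) ^ θ) ^ l) ^ (2 ^ l) := by
    refine le_trans ?_ hMl
    nlinarith
  have hsl : ss V T l ≤ (N : ℝ) ^ 2 * MM C θ T l := by
    unfold ss
    calc ∑ a ∈ V, ∑ b ∈ V, BB V T l a b ≤ ∑ a ∈ V, ∑ b ∈ V, MM C θ T l := by
          apply Finset.sum_le_sum
          intro a ha
          apply Finset.sum_le_sum
          intro b hb
          have h1 := BB_le C θ hC hcomp V hV T hT1 l a b (hV a ha) (hV b hb)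
          have h2 := G_le_one a b (hV a ha) (hV b hb)
          nlinarith
      _ = (N : ℝ) ^ 2 * MM C θ T l := by
          simp only [Finset.sum_const, nsmul_eq_mul]
          rw [← hNdef]; ring
  have hpow := ss_pow V T hpos l
  rw [← hNdef] at hpow
  have hs0 : ss V T 0 ≤ C * (N : ℝ) ^ (1 + η) := by
    have hr0 : 0 ≤ C * (N : ℝ) ^ (1 + η) := by positivity
    rw [← pow_le_pow_iff_left₀ (ss_nonneg V T 0) hr0 (pow_ne_zero l two_ne_zero)]
    have h1 : (N : ℝ) * (ss V T 0) ^ (2 ^ l)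
        ≤ (N : ℝ) * ((N : ℝ) ^ (2 ^ l) * ((N : ℝ) * (C * ((N : ℝ) ^ θ) ^ l) ^ (2 ^ l))) := by
      calc (N : ℝ) * (ss V T 0) ^ (2 ^ l) ≤ (N : ℝ) ^ (2 ^ l) * ss V T l := hpow
        _ ≤ (N : ℝ) ^ (2 ^ l) * ((N : ℝ) ^ 2 * MM C θ T l) :=
            mul_le_mul_of_nonneg_left hsl (by positivity)
        _ ≤ (N : ℝ) ^ (2 ^ l) * ((N : ℝ) ^ 2 * (C * ((N : ℝ) ^ θ) ^ l) ^ (2 ^ l)) := by
            apply mul_le_mul_of_nonneg_left _ (by positivity)
            exact mul_le_mul_of_nonneg_left hMl' (by positivity)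
        _ = _ := by ring
    have h2 := le_of_mul_le_mul_left h1 hN
    refine h2.trans ?_
    -- compare exponents
    have e1 : (C * (N : ℝ) ^ (1 + η)) ^ (2 ^ l)
        = (N : ℝ) ^ (2 ^ l) * (C ^ (2 ^ l) * (N : ℝ) ^ (η * 2 ^ l)) := by
      rw [mul_pow, Real.rpow_add hN, Real.rpow_one, mul_pow]
      have : ((N : ℝ) ^ η) ^ (2 ^ l) = (N : ℝ) ^ (η * 2 ^ l) := by
        rw [← Real.rpow_natCast, ← Real.rpow_mul hN.le]
        push_cast
        rfl
      rw [this]; ring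
    have e2 : (N : ℝ) * (C * ((N : ℝ) ^ θ) ^ l) ^ (2 ^ l)
        = C ^ (2 ^ l) * (N : ℝ) ^ (1 + θ * l * 2 ^ l) := by
      have : (((N : ℝ) ^ θ) ^ l) ^ (2 ^ l) = (N : ℝ) ^ (θ * l * 2 ^ l) := by
        rw [← Real.rpow_natCast, ← Real.rpow_natCast, ← Real.rpow_mul hN.le,
          ← Real.rpow_mul hN.le]
        push_cast
        rfl
      rw [mul_pow, this, Real.rpow_add hN, Real.rpow_one]; ring
    rw [e1, e2]
    apply mul_le_mul_of_nonneg_left _ (by positivity)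
    apply mul_le_mul_of_nonneg_left _ (by positivity)
    apply Real.rpow_le_rpow_of_exponent_le hN1
    -- 1 + θ l 2^l ≤ η 2^l
    have h2l : (0 : ℝ) < (2 : ℝ) ^ l := by positivity
    have hA : 1 ≤ η / 2 * 2 ^ l := by
      have h3 : 2 ≤ 2 ^ l * η := by rwa [div_le_iff₀ hη] at hl
      linarith
    have hB : θ * l ≤ η / 2 := by
      rw [hθdef, div_mul_eq_mul_div, div_le_div_iff₀ (by positivity) (by norm_num)]
      have : (0 : ℝ) ≤ l := Nat.cast_nonneg l
      nlinarith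
    nlinarith [mul_le_mul_of_nonneg_right hB h2l.le]
  -- the rest
  have hrest : ∑ a ∈ V, ∑ b ∈ V, G a b ≤ ss V T 0 + N := by
    have h1 : ∑ a ∈ V, ∑ b ∈ V, G a b ≤ ∑ a ∈ V, ∑ b ∈ V, (BB V T 0 a b + 1 / (N : ℝ)) := by
      apply Finset.sum_le_sum
      intro a ha
      apply Finset.sum_le_sum
      intro b hb
      simp only [BB]
      split_ifs with h
      · have : 0 ≤ 1 / (N : ℝ) := by positivity
        linarith
      · have := G_le a b (hV a ha) (hV b hb) N hpos (not_le.mp h).le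
        linarith
    refine h1.trans (le_of_eq ?_)
    unfold ss
    rw [← Finset.sum_congr rfl (fun a _ => (Finset.sum_add_distrib (s := V)
      (f := fun b => BB V T 0 a b) (g := fun _ => 1 / (N : ℝ))).symm), Finset.sum_add_distrib]
    congr 1
    simp only [Finset.sum_const, nsmul_eq_mul]
    rw [← hNdef]
    field_simp
  have hNle : (N : ℝ) ≤ (N : ℝ) ^ (1 + η) := by
    calc (N : ℝ) = (N : ℝ) ^ (1 : ℝ) := (Real.rpow_one _).symm
      _ ≤ (N : ℝ) ^ (1 + η) := Real.rpow_le_rpow_of_exponent_le hN1 (by linarith)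
  linarith

end LRL
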