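import Pool.Agent.MP_4eca2d_nt.Defs
set_option autoImplicit false

open MeasureTheory Finset

namespace LRL

theorem exp_neg_two_mul_le (x : ℝ) (h0 : 0 ≤ x) (h1 : x ≤ 1 / 2) :
    Real.exp (-(2 * x)) ≤ 1 - x := by
  have h2 : 1 + 2 * x ≤ Real.exp (2 * x) := by
    have := Real.add_one_le_exp (2 * x); linarith
  rw [Real.exp_neg]
  have h3 : 0 < 1 + 2 * x := by linarith
  calc (Real.exp (2 * x))⁻¹ ≤ (1 + 2 * x)⁻¹ := inv_anti₀ h3 h2
    _ ≤ 1 - x := by
      rw [inv_le_iff_one_le_mul₀ h3]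
      nlinarith [mul_nonneg h0 (by linarith : (0:ℝ) ≤ 1 - 2 * x)]

/-- D1.  By induction `p (k+1) ≥ ∏_{i≤k} (1-μ i) - ∑_{i<k} (μ (i+1) μ i + err i)`, and
`∏ (1-μ i) ≥ exp(-2∑ μ i) ≥ exp(-4) > 0.018`. -/
theorem iteration (p μ err : ℕ → ℝ) (hp0 : p 0 = 1) (hp1 : 1 - μ 0 ≤ p 1)
    (hstep : ∀ k, p (k + 1) - μ (k + 1) * p k - err k ≤ p (k + 2))
    (hback : ∀ k, p k ≤ p (k + 1) + μ k)
    (hμ0 : ∀ k, 0 ≤ μ k) (hμ1 : ∀ k, μ k ≤ 1 / 500)
    (hμs : ∀ K, ∑ k ∈ range K, μ k ≤ 2)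
    (herr0 : ∀ k, 0 ≤ err k) (herrs : ∀ K, ∑ k ∈ range K, err k ≤ 1 / 100) :
    ∀ K, 0 < p K := by
  have key : ∀ k, Real.exp (-(2 * ∑ i ∈ range (k + 1), μ i))
      - ∑ i ∈ range k, (μ (i + 1) * μ i + err i) ≤ p (k + 1) := by
    intro k
    induction k with
    | zero =>
      simp only [zero_add, range_one, sum_singleton, range_zero, sum_empty, sub_zero]
      exact (exp_neg_two_mul_le (μ 0) (hμ0 0) (by linarith [hμ1 0])).trans hp1
    | succ k ih =>
      rw [sum_range_succ (fun i => μ (i + 1) * μ i + err i) k]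
      rw [sum_range_succ μ (k + 1)]
      have e1 : Real.exp (-(2 * (∑ i ∈ range (k + 1), μ i + μ (k + 1))))
          = Real.exp (-(2 * ∑ i ∈ range (k + 1), μ i)) * Real.exp (-(2 * μ (k + 1))) := by
        rw [← Real.exp_add]; congr 1; ring
      have e2 := exp_neg_two_mul_le (μ (k + 1)) (hμ0 _) (by linarith [hμ1 (k + 1)])
      have e3 : 0 ≤ Real.exp (-(2 * ∑ i ∈ range (k + 1), μ i)) := (Real.exp_pos _).le
      have e4 : 0 ≤ ∑ i ∈ range k, (μ (i + 1) * μ i + err i) :=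
        sum_nonneg fun i _ => add_nonneg (mul_nonneg (hμ0 _) (hμ0 _)) (herr0 _)
      have hs := hstep k
      have hb := hback k
      have h1 : μ (k + 1) * p k ≤ μ (k + 1) * (p (k + 1) + μ k) :=
        mul_le_mul_of_nonneg_left hb (hμ0 _)
      have h2 : (1 - μ (k + 1)) * (Real.exp (-(2 * ∑ i ∈ range (k + 1), μ i))
          - ∑ i ∈ range k, (μ (i + 1) * μ i + err i)) ≤ (1 - μ (k + 1)) * p (k + 1) :=
        mul_le_mul_of_nonneg_left ih (by linarith [hμ1 (k + 1)])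
      have h3 : Real.exp (-(2 * ∑ i ∈ range (k + 1), μ i)) * Real.exp (-(2 * μ (k + 1)))
          ≤ Real.exp (-(2 * ∑ i ∈ range (k + 1), μ i)) * (1 - μ (k + 1)) :=
        mul_le_mul_of_nonneg_left e2 e3
      have h4 : 0 ≤ μ (k + 1) * ∑ i ∈ range k, (μ (i + 1) * μ i + err i) :=
        mul_nonneg (hμ0 _) e4
      rw [e1]
      generalize Real.exp (-(2 * ∑ i ∈ range (k + 1), μ i)) = a at *
      generalize Real.exp (-(2 * μ (k + 1))) = b at *
      generalize ∑ i ∈ range k, (μ (i + 1) * μ i + err i) = s at *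
      have : k + 1 + 1 = k + 2 := rfl
      rw [this]
      linarith [h1, h2, h3, h4, hs]
  intro K
  rcases K with _ | k
  · rw [hp0]; norm_num
  · refine lt_of_lt_of_le ?_ (key k)
    have h1 : Real.exp (-4) ≤ Real.exp (-(2 * ∑ i ∈ range (k + 1), μ i)) := by
      apply Real.exp_le_exp.mpr
      linarith [hμs (k + 1)]
    have h2 : (1 : ℝ) / 55 ≤ Real.exp (-4) := by
      rw [Real.exp_neg]
      have h3 : Real.exp 4 ≤ 55 := by
        have h4 : Real.exp 4 = (Real.exp 1) ^ 4 := by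
          rw [← Real.exp_nat_mul]; norm_num
        rw [h4]
        have h5 := Real.exp_one_lt_d9
        calc (Real.exp 1) ^ 4 ≤ (2.7182818286 : ℝ) ^ 4 :=
              pow_le_pow_left₀ (Real.exp_pos _).le h5.le 4
          _ ≤ 55 := by norm_num
      rw [one_div]
      exact inv_anti₀ (Real.exp_pos _) h3
    have h6 : ∑ i ∈ range k, (μ (i + 1) * μ i + err i) ≤ 1 / 250 + 1 / 100 := by
      rw [sum_add_distrib]
      have h7 : ∑ i ∈ range k, μ (i + 1) * μ i ≤ ∑ i ∈ range k, (1 / 500) * μ i :=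
        sum_le_sum fun i _ => mul_le_mul_of_nonneg_right (hμ1 _) (hμ0 _)
      rw [← mul_sum] at h7
      linarith [hμs k, herrs k]
    have h8 : (1 : ℝ) / 250 + 1 / 100 < 1 / 55 := by norm_num
    linarith

/-- D2.  Total error: the light windows give at most `2 (1/1000 + 4/n)`; the number of heavy ones is
at most `1000 ∑_k ∑_{i ∈ [k+1-2r,k)} μ i ≤ 1000 · 2r · 2`. -/
theorem err_sum (μ : ℕ → ℝ) (r : ℕ) (hμ0 : ∀ k, 0 ≤ μ k)
    (hμs : ∀ K, ∑ k ∈ range K, μ k ≤ 2) (κ ε : ℝ) (hκ : 0 ≤ κ) (hε : 0 ≤ ε) :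
    ∀ K, ∑ k ∈ range K,
      (if ∑ i ∈ Ico (k + 1 - 2 * r) k, μ i ≤ 1 / 1000 then μ (k + 1) * (1 / 1000 + ε) else κ)
        ≤ 2 * (1 / 1000 + ε) + 4000 * r * κ := by
  intro K
  have h1 : ∑ k ∈ range K,
      (if ∑ i ∈ Ico (k + 1 - 2 * r) k, μ i ≤ 1 / 1000 then μ (k + 1) * (1 / 1000 + ε) else κ)
      ≤ ∑ k ∈ range K, (μ (k + 1) * (1 / 1000 + ε)
        + (1000 * κ) * ∑ i ∈ Ico (k + 1 - 2 * r) k, μ i) := by
    refine sum_le_sum fun k _ => ?_
    have hS : 0 ≤ ∑ i ∈ Ico (k + 1 - 2 * r) k, μ i := sum_nonneg fun i _ => hμ0 i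
    split_ifs with h
    · have : 0 ≤ (1000 * κ) * ∑ i ∈ Ico (k + 1 - 2 * r) k, μ i := by positivity
      linarith
    · rw [not_le] at h
      have h2 : 0 ≤ μ (k + 1) * (1 / 1000 + ε) := mul_nonneg (hμ0 _) (by linarith)
      have h3 : (1000 * κ) * (1 / 1000) ≤ (1000 * κ) * ∑ i ∈ Ico (k + 1 - 2 * r) k, μ i :=
        mul_le_mul_of_nonneg_left h.le (by positivity)
      linarith
  refine h1.trans ?_
  rw [sum_add_distrib, ← sum_mul, ← mul_sum]
  have h2 : ∑ k ∈ range K, μ (k + 1) ≤ 2 := by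
    have h3 := hμs (K + 1)
    rw [sum_range_succ'] at h3
    linarith [hμ0 0]
  have h4 : ∑ k ∈ range K, ∑ i ∈ Ico (k + 1 - 2 * r) k, μ i ≤ 2 * r * 2 := by
    have h5 : ∀ k ∈ range K, ∑ i ∈ Ico (k + 1 - 2 * r) k, μ i
        = ∑ i ∈ range K, if (k + 1 - 2 * r ≤ i ∧ i < k) then μ i else 0 := by
      intro k hk
      rw [← sum_filter]
      apply sum_congr _ (fun _ _ => rfl)
      ext i
      simp only [mem_Ico, mem_filter, mem_range] at *
      omega
    rw [sum_congr rfl h5, sum_comm]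
    calc ∑ i ∈ range K, ∑ k ∈ range K, (if (k + 1 - 2 * r ≤ i ∧ i < k) then μ i else 0)
        ≤ ∑ i ∈ range K, (2 * r : ℝ) * μ i := by
          refine sum_le_sum fun i _ => ?_
          rw [← sum_filter, sum_const, nsmul_eq_mul]
          apply mul_le_mul_of_nonneg_right _ (hμ0 i)
          have hsub : (range K).filter (fun k => k + 1 - 2 * r ≤ i ∧ i < k) ⊆ Ico i (i + 2 * r) := by
            intro k hk
            simp only [mem_Ico, mem_filter, mem_range] at *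
            omega
          have hc := card_le_card hsub
          rw [Nat.card_Ico] at hc
          have : i + 2 * r - i = 2 * r := by omega
          rw [this] at hc
          exact_mod_cast hc
      _ = (2 * r : ℝ) * ∑ i ∈ range K, μ i := by rw [mul_sum]
      _ ≤ 2 * r * 2 := mul_le_mul_of_nonneg_left (hμs K) (by positivity)
  have h6 : (∑ k ∈ range K, μ (k + 1)) * (1 / 1000 + ε) ≤ 2 * (1 / 1000 + ε) :=
    mul_le_mul_of_nonneg_right h2 (by linarith)
  have h7 : (1000 * κ) * ∑ k ∈ range K, ∑ i ∈ Ico (k + 1 - 2 * r) k, μ i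
      ≤ (1000 * κ) * (2 * r * 2) := mul_le_mul_of_nonneg_left h4 (by positivity)
  calc _ ≤ 2 * (1 / 1000 + ε) + (1000 * κ) * (2 * r * 2) := add_le_add h6 h7
    _ = _ := by ring

end LRL
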