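import Pool.Agent.MP_4eca2d_nt.B2
import Pool.Agent.MP_4eca2d_nt.B3
import Pool.Agent.MP_4eca2d_nt.C3
import Pool.Agent.MP_4eca2d_nt.D

set_option autoImplicit false

open MeasureTheory Finset

namespace LRL


theorem m_nonneg (S : Set ℝ) : 0 ≤ m S := ENNReal.toReal_nonneg

theorem m_mono {S T : Set ℝ} (h : S ⊆ T) : m S ≤ m T := by
  unfold m
  apply ENNReal.toReal_mono
  · have : volume (T ∩ Set.Ico (0:ℝ) 1) ≤ volume (Set.Ico (0:ℝ) 1) :=
      measure_mono Set.inter_subset_right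
    rw [Real.volume_Ico] at this
    exact ne_top_of_le_ne_top (by simp) this
  · exact measure_mono (Set.inter_subset_inter_left _ h)

theorem m_univ : m Set.univ = 1 := by
  unfold m
  simp

theorem Av_empty (δ : ℝ) : Av ∅ δ = Set.univ := by
  ext t; simp [Av]

theorem Av_anti {U U' : Finset ℕ} (h : U' ⊆ U) (δ : ℝ) : Av U δ ⊆ Av U' δ :=
  fun _ ht u hu => ht u (h hu)

theorem Lo_zero (V : Finset ℕ) (hV : ∀ v ∈ V, 0 < v) (L : ℝ) : Lo V L 0 = ∅ := by
  unfold Lo
  rw [Finset.filter_eq_empty_iff]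
  intro v hv
  have : (1:ℝ) ≤ v := by exact_mod_cast hV v hv
  simp only [pow_zero]; linarith

theorem Lo_succ (V : Finset ℕ) (L : ℝ) (hL : 1 ≤ L) (k : ℕ) :
    Lo V L (k + 1) = Lo V L k ∪ Bl V L k := by
  unfold Lo Bl
  ext v
  simp only [mem_filter, mem_union]
  have hle : L ^ k ≤ L ^ (k + 1) := pow_le_pow_right₀ hL (Nat.le_succ k)
  constructor
  · rintro ⟨h1, h2⟩
    by_cases h : (v:ℝ) < L ^ k
    · exact Or.inl ⟨h1, h⟩
    · exact Or.inr ⟨h1, not_lt.mp h, h2⟩
  · rintro (⟨h1, h2⟩ | ⟨h1, h2, h3⟩)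
    · exact ⟨h1, lt_of_lt_of_le h2 hle⟩
    · exact ⟨h1, h3⟩

theorem Lo_mono (V : Finset ℕ) (L : ℝ) (hL : 1 ≤ L) {j k : ℕ} (h : j ≤ k) :
    Lo V L j ⊆ Lo V L k := by
  unfold Lo
  intro v
  simp only [mem_filter]
  rintro ⟨h1, h2⟩
  exact ⟨h1, lt_of_lt_of_le h2 (pow_le_pow_right₀ hL h)⟩

theorem card_Lo_sdiff (V : Finset ℕ) (L : ℝ) (hL : 1 ≤ L) (j k : ℕ) (h : j ≤ k) :
    (Lo V L k \ Lo V L j).card = ∑ i ∈ Ico j k, (Bl V L i).card := by
  induction k, h using Nat.le_induction with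
  | base => simp
  | succ k hk ih =>
    rw [Finset.sum_Ico_succ_top hk, ← ih]
    have hdisj : Disjoint (Lo V L k \ Lo V L j) (Bl V L k) := by
      rw [Finset.disjoint_left]
      intro v hv hv'
      simp only [Lo, Bl, mem_sdiff, mem_filter] at hv hv'
      linarith [hv.1.2, hv'.2.1]
    rw [← Finset.card_union_of_disjoint hdisj]
    congr 1
    ext v
    have hsub := Lo_mono V L hL hk
    rw [Lo_succ V L hL k]
    simp only [mem_sdiff, mem_union]
    constructor
    · rintro ⟨h1 | h1, h2⟩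
      · exact Or.inl ⟨h1, h2⟩
      · exact Or.inr h1
    · rintro (⟨h1, h2⟩ | h1)
      · exact ⟨Or.inl h1, h2⟩
      · refine ⟨Or.inr h1, fun h2 => ?_⟩
        have h3 := hsub h2
        simp only [Lo, Bl, mem_filter] at h1 h3
        linarith [h1.2.1, h3.2]

theorem sum_Bl_le (V : Finset ℕ) (hV : ∀ v ∈ V, 0 < v) (L : ℝ) (hL : 1 ≤ L) (K : ℕ) :
    ∑ i ∈ range K, (Bl V L i).card ≤ V.card := by
  have h := card_Lo_sdiff V L hL 0 K (Nat.zero_le K)
  rw [Lo_zero V hV L, Finset.sdiff_empty] at h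
  rw [Finset.range_eq_Ico, ← h]
  exact Finset.card_le_card (Finset.filter_subset _ _)

/-- the main iteration for fixed parameters -/
theorem core_fixed (r : ℕ) (n : ℕ) (hn : 2 ≤ n) (V : Finset ℕ)
    (hV : ∀ v ∈ V, 0 < v) (hcard : V.card ≤ n) (L Γ : ℝ) (hL : 1 < L)
    (hLr : L ^ (2 * r) = (n : ℝ) ^ 2) (hΓ0 : 0 ≤ Γ)
    (hΓ : ∑ a ∈ V, ∑ b ∈ V, G a b ≤ Γ * n)
    (hρ : Real.sqrt L / ((n : ℝ) + 1) ≤ 1 / 2)
    (hBl : ∀ k : ℕ, ((Bl V L k).card : ℝ) ≤ (n : ℝ) / 1000)
    (herr : 2 * (1 / 1000 + 4 / (n : ℝ)) + 4000 * r * KE Γ L ≤ 1 / 100) :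
    ∃ t : ℝ, ∀ v ∈ V, 1 / ((n : ℝ) + 1) ≤ nn (t * v) := by
  have hL1 : 1 ≤ L := hL.le
  have hn0 : (0:ℝ) < n := by positivity
  have hn2 : (2:ℝ) ≤ n := by exact_mod_cast hn
  set δ : ℝ := 1 / ((n : ℝ) + 1) with hδ
  have hδ0 : 0 < δ := by positivity
  have hδ1 : δ ≤ 1 / 2 := by
    rw [hδ]
    apply one_div_le_one_div_of_le (by norm_num)
    linarith
  have h2δ : 2 / ((n : ℝ) + 1) = 2 * δ := by rw [hδ]; ring
  have hKE0 : 0 ≤ KE Γ L := by unfold KE; positivity
  have hLoV : ∀ k, ∀ v ∈ Lo V L k, 0 < v := fun k v hv => hV v (Finset.filter_subset _ _ hv)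
  have hBlV : ∀ k, ∀ v ∈ Bl V L k, 0 < v := fun k v hv => hV v (Finset.filter_subset _ _ hv)
  set μ : ℕ → ℝ := fun k => 2 / ((n : ℝ) + 1) * ((Bl V L k).card : ℝ) with hμ
  set p : ℕ → ℝ := fun k => m (Av (Lo V L k) δ) with hp
  set err : ℕ → ℝ := fun k =>
    (if ∑ i ∈ Ico (k + 1 - 2 * r) k, μ i ≤ 1 / 1000 then μ (k + 1) * (1 / 1000 + 4 / (n : ℝ))
      else KE Γ L) with herrdef
  have hμ0 : ∀ k, 0 ≤ μ k := fun k => by simp only [hμ]; positivity
  have hμ1 : ∀ k, μ k ≤ 1 / 500 := by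
    intro k
    simp only [hμ]
    have h1 := hBl k
    have h2 : 2 / ((n:ℝ) + 1) * ((Bl V L k).card : ℝ) ≤ 2 / ((n:ℝ) + 1) * ((n:ℝ) / 1000) :=
      mul_le_mul_of_nonneg_left h1 (by positivity)
    refine h2.trans ?_
    rw [div_mul_div_comm, div_le_div_iff₀ (by positivity) (by norm_num)]
    nlinarith
  have hμs : ∀ K, ∑ k ∈ range K, μ k ≤ 2 := by
    intro K
    simp only [hμ]
    rw [← Finset.mul_sum, ← Nat.cast_sum]
    have h1 : ((∑ i ∈ range K, (Bl V L i).card : ℕ) : ℝ) ≤ n := by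
      exact_mod_cast (sum_Bl_le V hV L hL1 K).trans hcard
    calc 2 / ((n:ℝ) + 1) * ((∑ i ∈ range K, (Bl V L i).card : ℕ) : ℝ)
        ≤ 2 / ((n:ℝ) + 1) * n := mul_le_mul_of_nonneg_left h1 (by positivity)
      _ ≤ 2 := by
        rw [div_mul_eq_mul_div, div_le_iff₀ (by positivity)]
        linarith
  have herr0 : ∀ k, 0 ≤ err k := by
    intro k
    simp only [herrdef]
    split_ifs
    · have := hμ0 (k + 1)
      positivity
    · exact hKE0
  have herrs : ∀ K, ∑ k ∈ range K, err k ≤ 1 / 100 := fun K =>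
    (err_sum μ r hμ0 hμs (KE Γ L) (4 / (n:ℝ)) hKE0 (by positivity) K).trans herr
  have hpair : ∀ k, p k ≤ p (k + 1) + μ k := by
    intro k
    have h := (m_Av_union (Lo V L k) (Bl V L k) (hLoV k) (hBlV k) δ hδ0 hδ1).2
    rw [← Lo_succ V L hL1 k] at h
    simp only [hp, hμ]
    rw [h2δ]
    exact h
  have hp0 : p 0 = 1 := by
    simp only [hp]
    rw [Lo_zero V hV L, Av_empty, m_univ]
  have hp1 : 1 - μ 0 ≤ p 1 := by
    have := hpair 0
    rw [hp0] at this
    simpa using (by linarith : 1 - μ 0 ≤ p (0 + 1))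
  have hstep : ∀ k, p (k + 1) - μ (k + 1) * p k - err k ≤ p (k + 2) := by
    intro k
    have h1 := (m_Av_union (Lo V L (k + 1)) (Bl V L (k + 1)) (hLoV (k + 1)) (hBlV (k + 1))
      δ hδ0 hδ1).1
    rw [← Lo_succ V L hL1 (k + 1)] at h1
    have h2 : ∑ w ∈ Bl V L (k + 1), m (Av (Lo V L (k + 1)) δ ∩ E w δ)
        ≤ ∑ w ∈ Bl V L (k + 1), m (Av (Lo V L k) δ ∩ E w δ) := by
      apply Finset.sum_le_sum
      intro w _
      exact m_mono (Set.inter_subset_inter_left _ (Av_anti (Lo_mono V L hL1 (Nat.le_succ k)) δ))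
    have h3 : ∑ w ∈ Bl V L (k + 1), m (Av (Lo V L k) δ ∩ E w δ) ≤ μ (k + 1) * p k + err k := by
      simp only [herrdef]
      split_ifs with hW
      · -- light
        have hle : k + 1 - 2 * r ≤ k ∨ r = 0 := by omega
        rcases hle with hle | hr0
        swap
        · -- r = 0 gives L^0 = n^2, impossible
          subst hr0
          simp at hLr
          nlinarith
        have h := light (Lo V L k) (Lo V L (k + 1 - 2 * r)) (Bl V L (k + 1))
          (Lo_mono V L hL1 hle) (hLoV k) (hBlV (k + 1)) n (by omega)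
          ((Finset.card_le_card (Finset.filter_subset _ _)).trans hcard) (by
            intro u hu w hw
            simp only [Lo, Bl, mem_filter] at hu hw
            by_cases hk : 2 * r ≤ k + 1
            · have h5 : L ^ (2 * r) * L ^ (k + 1 - 2 * r) = L ^ (k + 1) := by
                rw [← pow_add]; congr 1; omega
              have h6 : L ^ (2 * r) * (u : ℝ) ≤ L ^ (2 * r) * L ^ (k + 1 - 2 * r) :=
                mul_le_mul_of_nonneg_left hu.2.le (by positivity)
              rw [h5, hLr] at h6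
              exact h6.trans hw.2.1
            · exfalso
              have h5 : k + 1 - 2 * r = 0 := by omega
              rw [h5, pow_zero] at hu
              have : (1:ℝ) ≤ u := by exact_mod_cast hV u hu.1
              linarith [hu.2])
        refine h.trans ?_
        have hWeq : 2 / ((n : ℝ) + 1) * ((Lo V L k \ Lo V L (k + 1 - 2 * r)).card : ℝ)
            = ∑ i ∈ Ico (k + 1 - 2 * r) k, μ i := by
          rw [card_Lo_sdiff V L hL1 _ _ hle, Nat.cast_sum, Finset.mul_sum]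
        rw [hWeq]
        have h7 : 2 / ((n : ℝ) + 1) * ((Bl V L (k + 1)).card : ℝ) = μ (k + 1) := rfl
        rw [h7]
        have h8 : m (Av (Lo V L k) δ) = p k := rfl
        rw [h8]
        have := hμ0 (k + 1)
        nlinarith
      · -- heavy
        have h := key V (Lo V L k) (Bl V L (k + 1)) (Finset.filter_subset _ _)
          (Finset.filter_subset _ _) hV n (by omega) hcard L Γ hL1 hΓ0 (by
            intro u hu w hw
            simp only [Lo, Bl, mem_filter] at hu hw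
            have h5 : L * (u:ℝ) ≤ L * L ^ k := mul_le_mul_of_nonneg_left hu.2.le (by positivity)
            rw [← pow_succ'] at h5
            exact h5.trans hw.2.1) hΓ hρ
        exact h
    have h4 : m (Av (Lo V L (k + 1)) δ) = p (k + 1) := rfl
    have h5 : m (Av (Lo V L (k + 1 + 1)) δ) = p (k + 2) := rfl
    rw [h4, h5] at h1
    linarith
  have hpos := iteration p μ err hp0 hp1 hstep hpair hμ0 hμ1 hμs herr0 herrs
  -- choose K with L^K > max V
  obtain ⟨K, hK⟩ : ∃ K : ℕ, ((V.sup id : ℕ) : ℝ) < L ^ K := by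
    exact pow_unbounded_of_one_lt _ hL
  have hLoK : Lo V L K = V := by
    unfold Lo
    rw [Finset.filter_eq_self]
    intro v hv
    have : v ≤ V.sup id := Finset.le_sup (f := id) hv
    have : (v:ℝ) ≤ ((V.sup id : ℕ) : ℝ) := by exact_mod_cast this
    linarith
  have hposK := hpos K
  simp only [hp] at hposK
  rw [hLoK] at hposK
  have hne : (Av V δ).Nonempty := by
    by_contra hcon
    rw [Set.not_nonempty_iff_eq_empty] at hcon
    rw [hcon] at hposK
    simp [m] at hposK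
  obtain ⟨t, ht⟩ := hne
  exact ⟨t, fun v hv => ht v hv⟩

end LRL
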