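import Mathlib

set_option autoImplicit false

open MeasureTheory Finset

namespace LRL

/-- distance to the nearest integer -/
noncomputable def nn (x : ℝ) : ℝ := |x - (round x : ℝ)|

/-- times at which the speed `w` is at distance less than `δ` from an integer -/
def E (w : ℕ) (δ : ℝ) : Set ℝ := {t | nn (t * w) < δ}

/-- times at which every speed of `U` is at distance at least `δ` from the integers -/
def Av (U : Finset ℕ) (δ : ℝ) : Set ℝ := {t | ∀ u ∈ U, δ ≤ nn (t * u)}

/-- Lebesgue measure of the part of `S` in `[0,1)` -/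
noncomputable def m (S : Set ℝ) : ℝ := (volume (S ∩ Set.Ico 0 1)).toReal

/-- `gcd(a,b)/√(ab)` -/
noncomputable def G (a b : ℕ) : ℝ := (Nat.gcd a b : ℝ) / Real.sqrt ((a : ℝ) * b)

/-- reduced height of `a/b` -/
def ht (a b : ℕ) : ℕ := (a / Nat.gcd a b) * (b / Nat.gcd a b)

/-- the error of the key lemma -/
noncomputable def KE (Γ L : ℝ) : ℝ :=
  Real.sqrt (2 * Γ / Real.sqrt L) + 8 / Real.sqrt L + 4 * Γ / Real.sqrt L

/-- the speeds of `V` below `L^k` -/
noncomputable def Lo (V : Finset ℕ) (L : ℝ) (k : ℕ) : Finset ℕ :=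
  V.filter (fun v : ℕ => (v : ℝ) < L ^ k)

/-- the speeds of `V` in `[L^k, L^(k+1))` -/
noncomputable def Bl (V : Finset ℕ) (L : ℝ) (k : ℕ) : Finset ℕ :=
  V.filter (fun v : ℕ => L ^ k ≤ (v : ℝ) ∧ (v : ℝ) < L ^ (k + 1))

end LRL
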