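import Pool.Agent.MP_4eca2d_nt.Defs
set_option autoImplicit false

open MeasureTheory Finset

namespace LRL

/-- a sequence with consecutive ratios at least `q` grows like the powers of `q` -/
theorem window_pow (n : ℕ) (q : ℝ) (hq : 0 ≤ q) (v : Fin n → ℕ)
    (h : ∀ i j : Fin n, j.val = i.val + 1 → q * (v i : ℝ) ≤ (v j : ℝ)) :
    ∀ (d : ℕ) (i j : Fin n), j.val = i.val + d → q ^ d * (v i : ℝ) ≤ (v j : ℝ) := by
  intro d
  induction d with
  | zero =>
    intro i j hij
    have : i = j := Fin.ext (by omega)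
    subst this
    simp
  | succ d ih =>
    intro i j hij
    have hlt : i.val + d < n := by have := j.isLt; omega
    have h1 := ih i ⟨i.val + d, hlt⟩ rfl
    have h2 := h ⟨i.val + d, hlt⟩ j (by simp only; omega)
    calc q ^ (d + 1) * (v i : ℝ) = q * (q ^ d * (v i : ℝ)) := by ring
      _ ≤ q * (v ⟨i.val + d, hlt⟩ : ℝ) := mul_le_mul_of_nonneg_left h1 hq
      _ ≤ (v j : ℝ) := h2

/-- F1.  Window counts of a lacunary sequence. -/
theorem window (c : ℝ) (hc : 0 < c) : ∃ r : ℕ, 1 ≤ r ∧ ∃ n0 : ℕ, ∀ n : ℕ, n0 ≤ n →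
    ∀ v : Fin n → ℕ, (∀ i, 0 < v i) →
      (∀ i j : Fin n, j.val = i.val + 1 →
        (1 + c * Real.log n / (n : ℝ)) * (v i : ℝ) ≤ (v j : ℝ)) →
      ∀ x : ℝ, 0 < x →
        (((univ : Finset (Fin n)).filter
          (fun i => x ≤ (v i : ℝ) ∧ (v i : ℝ) < x * (n : ℝ) ^ (1 / (r : ℝ)))).card : ℝ)
          ≤ (n : ℝ) / 1000 := by
  refine ⟨⌈4000 / c⌉₊ + 1, by omega, ⌈4 * c ^ 2⌉₊ + 2000, ?_⟩
  intro n hn v hv h x hx
  set r : ℕ := ⌈4000 / c⌉₊ + 1 with hr
  have hrc : 4000 ≤ c * (r : ℝ) := by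
    have h1 : 4000 / c ≤ (⌈4000 / c⌉₊ : ℝ) := Nat.le_ceil _
    have h2 : (⌈4000 / c⌉₊ : ℝ) ≤ (r : ℝ) := by rw [hr]; push_cast; linarith
    have h3 : 4000 / c ≤ (r : ℝ) := le_trans h1 h2
    rw [div_le_iff₀ hc] at h3
    linarith
  have hr0 : (0 : ℝ) < r := by rw [hr]; positivity
  have hn2000 : (2000 : ℝ) ≤ (n : ℝ) := by
    have : 2000 ≤ n := by omega
    exact_mod_cast this
  have hn0 : (0 : ℝ) < n := by linarith
  have hlog : 0 < Real.log n := Real.log_pos (by linarith)
  have hc2 : 4 * c ^ 2 ≤ (n : ℝ) := by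
    have h1 : 4 * c ^ 2 ≤ (⌈4 * c ^ 2⌉₊ : ℝ) := Nat.le_ceil _
    have h2 : (⌈4 * c ^ 2⌉₊ : ℝ) ≤ (n : ℝ) := by
      have : ⌈4 * c ^ 2⌉₊ ≤ n := by omega
      exact_mod_cast this
    linarith
  -- c log n ≤ n
  have hsq : Real.sqrt n * Real.sqrt n = n := Real.mul_self_sqrt hn0.le
  have hsq0 : 0 < Real.sqrt n := Real.sqrt_pos.mpr hn0
  have hcs : 2 * c ≤ Real.sqrt n := by
    apply Real.le_sqrt_of_sq_le
    nlinarith
  have hlogs : Real.log n ≤ 2 * Real.sqrt n := by
    have h1 : Real.log (n : ℝ) = 2 * Real.log (Real.sqrt n) := by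
      rw [Real.log_sqrt hn0.le]; ring
    have h2 : Real.log (Real.sqrt n) ≤ Real.sqrt n - 1 := Real.log_le_sub_one_of_pos hsq0
    rw [h1]
    linarith
  have hy1 : c * Real.log n ≤ n := by
    calc c * Real.log n ≤ c * (2 * Real.sqrt n) := mul_le_mul_of_nonneg_left hlogs hc.le
      _ = (2 * c) * Real.sqrt n := by ring
      _ ≤ Real.sqrt n * Real.sqrt n := mul_le_mul_of_nonneg_right hcs hsq0.le
      _ = n := hsq
  set y : ℝ := c * Real.log n / (n : ℝ) with hy
  have hy0 : 0 < y := by positivity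
  have hy1' : y ≤ 1 := by rw [hy, div_le_one hn0]; exact hy1
  have hlogy : y / 2 ≤ Real.log (1 + y) := by
    have h1 := Real.one_sub_inv_le_log_of_pos (show (0 : ℝ) < 1 + y by linarith)
    have h2 : y / 2 ≤ 1 - (1 + y)⁻¹ := by
      have h3 : (1 : ℝ) - (1 + y)⁻¹ = y / (1 + y) := by field_simp; ring
      rw [h3, div_le_div_iff₀ (by norm_num) (by linarith)]
      nlinarith
    linarith
  set S := (univ : Finset (Fin n)).filter
          (fun i => x ≤ (v i : ℝ) ∧ (v i : ℝ) < x * (n : ℝ) ^ (1 / (r : ℝ))) with hS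
  rcases S.eq_empty_or_nonempty with hemp | hne
  · rw [hemp]
    simp only [Finset.card_empty, Nat.cast_zero]
    positivity
  · set a := S.min' hne with ha
    set b := S.max' hne with hb
    have haS : a ∈ S := S.min'_mem hne
    have hbS : b ∈ S := S.max'_mem hne
    have hab : a ≤ b := S.min'_le_max' hne
    have hsub : S ⊆ Finset.Icc a b := by
      intro i hi
      exact Finset.mem_Icc.mpr ⟨S.min'_le i hi, S.le_max' i hi⟩
    have hcard : S.card ≤ b.val + 1 - a.val := by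
      have := Finset.card_le_card hsub
      rwa [Fin.card_Icc] at this
    have habv : a.val ≤ b.val := hab
    have hpow := window_pow n (1 + y) (by linarith) v h (b.val - a.val) a b (by omega)
    rw [hS, Finset.mem_filter] at haS hbS
    have hax := haS.2.1
    have hbx := hbS.2.2
    have hva : (0 : ℝ) < v a := by exact_mod_cast hv a
    have hlt : (1 + y) ^ (b.val - a.val) < (n : ℝ) ^ (1 / (r : ℝ)) := by
      have h1 : (1 + y) ^ (b.val - a.val) * x < x * (n : ℝ) ^ (1 / (r : ℝ)) := by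
        calc (1 + y) ^ (b.val - a.val) * x ≤ (1 + y) ^ (b.val - a.val) * (v a : ℝ) :=
              mul_le_mul_of_nonneg_left hax (by positivity)
          _ ≤ (v b : ℝ) := hpow
          _ < _ := hbx
      rw [mul_comm] at h1
      exact lt_of_mul_lt_mul_left h1 hx.le
    have hlog2 : ((b.val - a.val : ℕ) : ℝ) * Real.log (1 + y) ≤ (1 / (r : ℝ)) * Real.log n := by
      have h1 := Real.log_le_log (by positivity) hlt.le
      rwa [Real.log_pow, Real.log_rpow hn0] at h1
    have hD : ((b.val - a.val : ℕ) : ℝ) ≤ (n : ℝ) / 2000 := by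
      have h1 : ((b.val - a.val : ℕ) : ℝ) * (y / 2) ≤ (1 / (r : ℝ)) * Real.log n :=
        le_trans (mul_le_mul_of_nonneg_left hlogy (by positivity)) hlog2
      have h2 : ((b.val - a.val : ℕ) : ℝ) * (c * r) ≤ 2 * n := by
        have h3 : ((b.val - a.val : ℕ) : ℝ) * (c * Real.log n / n / 2) * (r * n * 2)
            ≤ (1 / (r : ℝ)) * Real.log n * (r * n * 2) :=
          mul_le_mul_of_nonneg_right h1 (by positivity)
        have h4 : ((b.val - a.val : ℕ) : ℝ) * (c * Real.log n / n / 2) * (r * n * 2)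
            = (((b.val - a.val : ℕ) : ℝ) * (c * r)) * Real.log n := by field_simp
        have h5 : (1 / (r : ℝ)) * Real.log n * (r * n * 2) = (2 * n) * Real.log n := by
          field_simp
        rw [h4, h5] at h3
        exact le_of_mul_le_mul_right h3 hlog
      have h6 : ((b.val - a.val : ℕ) : ℝ) * 4000 ≤ ((b.val - a.val : ℕ) : ℝ) * (c * r) :=
        mul_le_mul_of_nonneg_left hrc (by positivity)
      linarith
    have hcard' : (S.card : ℝ) ≤ ((b.val - a.val : ℕ) : ℝ) + 1 := by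
      have : S.card ≤ (b.val - a.val) + 1 := by omega
      exact_mod_cast this
    linarith

end LRL
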