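import Pool.Agent.MP_4eca2d_nt.Defs
set_option autoImplicit false

open MeasureTheory Finset

namespace LRL

namespace F23

/-- points in a middle third are far from the integers -/
theorem nn_third (x : ℝ) (m : ℤ) (h1 : (m : ℝ) + 1 / 3 ≤ x) (h2 : x ≤ (m : ℝ) + 2 / 3) :
    1 / 3 ≤ nn x := by
  unfold nn
  rcases le_or_gt (round x) m with h | h
  · have h3 : ((round x : ℤ) : ℝ) ≤ (m : ℝ) := by exact_mod_cast h
    rw [le_abs]
    left
    linarith
  · have h3 : (m : ℝ) + 1 ≤ ((round x : ℤ) : ℝ) := by exact_mod_cast h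
    rw [le_abs]
    right
    linarith

/-- nested intervals -/
theorem nested (n : ℕ) (v : Fin n → ℕ) (hv : ∀ i, 0 < v i)
    (h : ∀ i j : Fin n, j.val = i.val + 1 → (6 : ℝ) * (v i : ℝ) ≤ (v j : ℝ)) :
    ∀ k : ℕ, ∀ hk : k < n, ∃ a : ℝ, ∀ t : ℝ, a ≤ t → t ≤ a + 1 / (3 * (v ⟨k, hk⟩ : ℝ)) →
      ∀ i : Fin n, i.val ≤ k → 1 / 3 ≤ nn (t * v i) := by
  intro k
  induction k with
  | zero =>
    intro hk
    have hv0 : (0 : ℝ) < (v ⟨0, hk⟩ : ℝ) := by exact_mod_cast hv _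
    refine ⟨1 / (3 * (v ⟨0, hk⟩ : ℝ)), ?_⟩
    intro t h1 h2 i hi
    have hi0 : i = ⟨0, hk⟩ := Fin.ext (Nat.le_zero.mp hi)
    subst hi0
    apply nn_third _ 0
    · have : 1 / (3 * (v ⟨0, hk⟩ : ℝ)) * (v ⟨0, hk⟩ : ℝ) = 1 / 3 := by field_simp
      have h3 := mul_le_mul_of_nonneg_right h1 hv0.le
      push_cast
      linarith
    · have : (1 / (3 * (v ⟨0, hk⟩ : ℝ)) + 1 / (3 * (v ⟨0, hk⟩ : ℝ))) * (v ⟨0, hk⟩ : ℝ)
          = 2 / 3 := by field_simp; norm_num
      have h3 := mul_le_mul_of_nonneg_right h2 hv0.le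
      push_cast
      linarith
  | succ k ih =>
    intro hk
    obtain ⟨a, ha⟩ := ih (by omega)
    have hk' : k < n := by omega
    have hv0 : (0 : ℝ) < (v ⟨k, hk'⟩ : ℝ) := by exact_mod_cast hv _
    have hv1 : (0 : ℝ) < (v ⟨k + 1, hk⟩ : ℝ) := by exact_mod_cast hv _
    have h6 := h ⟨k, hk'⟩ ⟨k + 1, hk⟩ rfl
    set x : ℝ := (v ⟨k, hk'⟩ : ℝ) with hx
    set y : ℝ := (v ⟨k + 1, hk⟩ : ℝ) with hy
    have hxy : 2 / y ≤ 1 / (3 * x) := by
      rw [div_le_div_iff₀ hv1 (by positivity)]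
      linarith
    have hm1 : a * y ≤ (⌈a * y⌉ : ℝ) := Int.le_ceil _
    have hm2 : (⌈a * y⌉ : ℝ) < a * y + 1 := Int.ceil_lt_add_one _
    set m : ℤ := ⌈a * y⌉ with hm
    refine ⟨((m : ℝ) + 1 / 3) / y, ?_⟩
    intro t h1 h2 i hi
    have e1 : (m : ℝ) + 1 / 3 ≤ t * y := by
      have := (div_le_iff₀ hv1).mp h1
      exact this
    have e2 : t * y ≤ (m : ℝ) + 2 / 3 := by
      have h3 : ((m : ℝ) + 1 / 3) / y + 1 / (3 * y) = ((m : ℝ) + 2 / 3) / y := by
        field_simp; ring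
      rw [h3] at h2
      exact (le_div_iff₀ hv1).mp h2
    rcases Nat.lt_or_ge i.val (k + 1) with hlt | hge
    · apply ha t _ _ i (by omega)
      · -- a ≤ t
        have : a * y ≤ t * y := by linarith
        exact le_of_mul_le_mul_right this hv1
      · have h4 : t ≤ a + 2 / y := by
          have h5 : t * y ≤ (a + 2 / y) * y := by
            have : (a + 2 / y) * y = a * y + 2 := by field_simp
            rw [this]; linarith
          exact le_of_mul_le_mul_right h5 hv1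
        linarith
    · have hi0 : i = ⟨k + 1, hk⟩ := Fin.ext (by simp; omega)
      subst hi0
      exact nn_third _ m e1 e2

end F23

open F23 in
/-- F2.  Very lacunary sequences: nested intervals. -/
theorem very_lacunary (n : ℕ) (hn : 1 ≤ n) (v : Fin n → ℕ) (hv : ∀ i, 0 < v i)
    (h : ∀ i j : Fin n, j.val = i.val + 1 → (6 : ℝ) * (v i : ℝ) ≤ (v j : ℝ)) :
    ∃ t : ℝ, ∀ i : Fin n, 1 / ((n : ℝ) + 1) ≤ nn (t * v i) := by
  rcases Nat.lt_or_ge n 2 with h1 | h2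
  · have hn1 : n = 1 := by omega
    subst hn1
    have hv0 : (0 : ℝ) < (v 0 : ℝ) := by exact_mod_cast hv _
    refine ⟨1 / (2 * (v 0 : ℝ)), ?_⟩
    intro i
    have hi : i = 0 := Subsingleton.elim _ _
    subst hi
    have e : 1 / (2 * (v 0 : ℝ)) * (v 0 : ℝ) = 1 / 2 := by field_simp
    rw [e]
    unfold nn
    rcases le_or_gt (round (1 / 2 : ℝ)) 0 with h | h
    · have h3 : ((round (1 / 2 : ℝ) : ℤ) : ℝ) ≤ 0 := by exact_mod_cast h
      rw [le_abs]
      left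
      push_cast
      linarith
    · have h3 : (1 : ℝ) ≤ ((round (1 / 2 : ℝ) : ℤ) : ℝ) := by exact_mod_cast h
      rw [le_abs]
      right
      push_cast
      linarith
  · obtain ⟨a, ha⟩ := nested n v hv h (n - 1) (by omega)
    refine ⟨a, ?_⟩
    intro i
    have h3 := ha a (le_refl _) (by
      have : 0 ≤ 1 / (3 * (v ⟨n - 1, by omega⟩ : ℝ)) := by positivity
      linarith) i (by have := i.isLt; omega)
    refine le_trans ?_ h3
    have h4 : (2 : ℝ) ≤ n := by exact_mod_cast h2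
    rw [div_le_div_iff₀ (by linarith) (by norm_num)]
    linarith

/-- the property for a given `n` and `w` -/
def Pr (n : ℕ) (w : ℝ) : Prop :=
  ∀ v : Fin n → ℕ, (∀ i, 0 < v i) →
    (∀ i j : Fin n, j.val = i.val + 1 → (1 + w / (n : ℝ)) * (v i : ℝ) ≤ (v j : ℝ)) →
    ∃ t : ℝ, ∀ i : Fin n, 1 / ((n : ℝ) + 1) ≤ |t * (v i : ℝ) - (round (t * (v i : ℝ)) : ℝ)|

open Classical in
/-- F3.  Diagonal argument: `ω n = (c*(n) + 1/n) log n`, `c*(n) = inf {c > 0 | Pr n (c log n)}`. -/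
theorem diag (h1 : ∀ n : ℕ, 1 ≤ n → Pr n (5 * n))
    (h2 : ∀ c : ℝ, 0 < c → ∃ n0 : ℕ, ∀ n : ℕ, n0 ≤ n → Pr n (c * Real.log n)) :
    ∃ ω : ℕ → ℝ, Asymptotics.IsLittleO Filter.atTop ω (fun n : ℕ => Real.log (n : ℝ)) ∧
      ∀ n : ℕ, 1 ≤ n → Pr n (ω n) := by
  let P : ℕ → ℕ → Prop := fun n k => Pr n (1 / ((k : ℝ) + 1) * Real.log n)
  let K : ℕ → ℕ := fun n => Nat.findGreatest (P n) n
  refine ⟨fun n => if P n (K n) then 1 / ((K n : ℝ) + 1) * Real.log n else 5 * n, ?_, ?_⟩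
  · rw [Asymptotics.isLittleO_iff]
    intro c hc
    obtain ⟨k, hk⟩ := exists_nat_one_div_lt hc
    obtain ⟨n0, hn0⟩ := h2 (1 / ((k : ℝ) + 1)) (by positivity)
    filter_upwards [Filter.eventually_ge_atTop (max n0 (max k 1))] with n hn
    have hn1 : n0 ≤ n := le_trans (le_max_left _ _) hn
    have hn2 : k ≤ n := le_trans (le_trans (le_max_left _ _) (le_max_right _ _)) hn
    have hn3 : 1 ≤ n := le_trans (le_trans (le_max_right _ _) (le_max_right _ _)) hn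
    have hPk : P n k := hn0 n hn1
    have hPK : P n (K n) := Nat.findGreatest_spec hn2 hPk
    have hkK : k ≤ K n := Nat.le_findGreatest hn2 hPk
    rw [if_pos hPK]
    have hlog : 0 ≤ Real.log (n : ℝ) := Real.log_nonneg (by exact_mod_cast hn3)
    have hk1 : 1 / ((K n : ℝ) + 1) ≤ 1 / ((k : ℝ) + 1) := by
      apply one_div_le_one_div_of_le (by positivity)
      have : (k : ℝ) ≤ (K n : ℝ) := by exact_mod_cast hkK
      linarith
    have hk2 : 1 / ((K n : ℝ) + 1) ≤ c := le_trans hk1 hk.le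
    have hk0 : 0 ≤ 1 / ((K n : ℝ) + 1) := by positivity
    rw [Real.norm_of_nonneg (mul_nonneg hk0 hlog), Real.norm_of_nonneg hlog]
    exact mul_le_mul_of_nonneg_right hk2 hlog
  · intro n hn
    by_cases hP : P n (K n)
    · simp only [if_pos hP]
      exact hP
    · simp only [if_neg hP]
      exact h1 n hn

end LRL
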