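import Pool.Agent.MP_4eca2d_nt.Core
import Pool.Agent.MP_4eca2d_nt.F1
import Pool.Agent.MP_4eca2d_nt.F23

set_option autoImplicit false

open MeasureTheory Finset

namespace LRL


theorem tendsto_KE (r : ℕ) (hr : 1 ≤ r) (C : ℝ) :
    Filter.Tendsto (fun n : ℕ => KE (C * (n : ℝ) ^ (1 / (4 * (r : ℝ)))) ((n : ℝ) ^ (1 / (r : ℝ))))
      Filter.atTop (nhds 0) := by
  have hr0 : (0:ℝ) < r := by exact_mod_cast hr
  have hx : Filter.Tendsto (fun n : ℕ => (n:ℝ)) Filter.atTop Filter.atTop :=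
    tendsto_natCast_atTop_atTop
  have h1 : Filter.Tendsto (fun n : ℕ => (n:ℝ) ^ (-(1 / (4 * (r : ℝ))))) Filter.atTop (nhds 0) :=
    (tendsto_rpow_neg_atTop (by positivity)).comp hx
  have h2 : Filter.Tendsto (fun n : ℕ => (n:ℝ) ^ (-(1 / (2 * (r : ℝ))))) Filter.atTop (nhds 0) :=
    (tendsto_rpow_neg_atTop (by positivity)).comp hx
  have h3 : Filter.Tendsto (fun n : ℕ => Real.sqrt (2 * C * (n:ℝ) ^ (-(1 / (4 * (r : ℝ)))))
      + 8 * (n:ℝ) ^ (-(1 / (2 * (r : ℝ)))) + 4 * C * (n:ℝ) ^ (-(1 / (4 * (r : ℝ)))))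
      Filter.atTop (nhds (Real.sqrt (2 * C * 0) + 8 * 0 + 4 * C * 0)) := by
    refine ((Filter.Tendsto.sqrt (h1.const_mul (2 * C))).add (h2.const_mul 8)).add
      (h1.const_mul (4 * C))
  have h4 : Real.sqrt (2 * C * 0) + 8 * 0 + 4 * C * 0 = 0 := by simp
  rw [h4] at h3
  refine h3.congr' ?_
  filter_upwards [Filter.eventually_ge_atTop 1] with n hn
  have hn0 : (0:ℝ) < n := by exact_mod_cast hn
  have hs : Real.sqrt ((n : ℝ) ^ (1 / (r : ℝ))) = (n:ℝ) ^ (1 / (2 * (r:ℝ))) := by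
    rw [Real.sqrt_eq_rpow, ← Real.rpow_mul hn0.le]
    congr 1
    field_simp
  have h5 : (n:ℝ) ^ (1 / (4 * (r : ℝ))) / (n:ℝ) ^ (1 / (2 * (r:ℝ))) = (n:ℝ) ^ (-(1 / (4 * (r : ℝ)))) := by
    rw [← Real.rpow_sub hn0]
    congr 1
    field_simp
    norm_num
  have h6 : (1:ℝ) / (n:ℝ) ^ (1 / (2 * (r:ℝ))) = (n:ℝ) ^ (-(1 / (2 * (r : ℝ)))) := by
    rw [Real.rpow_neg hn0.le]
    ring
  unfold KE
  rw [hs, ← h5, ← h6]
  have e1 : 2 * (C * (n:ℝ) ^ (1 / (4 * (r : ℝ)))) / (n:ℝ) ^ (1 / (2 * (r:ℝ)))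
      = 2 * C * ((n:ℝ) ^ (1 / (4 * (r : ℝ))) / (n:ℝ) ^ (1 / (2 * (r:ℝ)))) := by ring
  rw [e1]
  ring

theorem core (r : ℕ) (hr : 1 ≤ r) : ∃ n0 : ℕ, ∀ n : ℕ, n0 ≤ n → ∀ V : Finset ℕ,
    (∀ v ∈ V, 0 < v) → V.card ≤ n →
    (∀ k : ℕ, ((Bl V ((n : ℝ) ^ (1 / (r : ℝ))) k).card : ℝ) ≤ (n : ℝ) / 1000) →
    ∃ t : ℝ, ∀ v ∈ V, 1 / ((n : ℝ) + 1) ≤ nn (t * v) := by
  have hr0 : (0:ℝ) < r := by exact_mod_cast hr
  obtain ⟨C, hC1, hC⟩ := gcd_sum (1 / (4 * (r : ℝ))) (by positivity)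
  have hC0 : 0 ≤ C := by linarith
  have hx : Filter.Tendsto (fun n : ℕ => (n:ℝ)) Filter.atTop Filter.atTop :=
    tendsto_natCast_atTop_atTop
  have h1 : Filter.Tendsto (fun n : ℕ => 2 * (1 / 1000 + 4 / (n : ℝ)) + 4000 * r *
      KE (C * (n : ℝ) ^ (1 / (4 * (r : ℝ)))) ((n : ℝ) ^ (1 / (r : ℝ)))) Filter.atTop
      (nhds (2 * (1 / 1000 + 0) + 4000 * r * 0)) := by
    refine Filter.Tendsto.add ?_ ?_
    · exact ((tendsto_const_nhds.div_atTop hx).const_add (1 / 1000)).const_mul 2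
    · exact (tendsto_KE r hr C).const_mul (4000 * (r:ℝ))
  have h2 : ∀ᶠ n : ℕ in Filter.atTop, 2 * (1 / 1000 + 4 / (n : ℝ)) + 4000 * r *
      KE (C * (n : ℝ) ^ (1 / (4 * (r : ℝ)))) ((n : ℝ) ^ (1 / (r : ℝ))) < 1 / 100 := by
    apply h1.eventually_lt_const
    norm_num
  rw [Filter.eventually_atTop] at h2
  obtain ⟨n1, hn1⟩ := h2
  refine ⟨max 2 n1, fun n hn V hV hcard hBl => ?_⟩
  have hn2 : 2 ≤ n := le_trans (le_max_left _ _) hn
  have hnn1 : n1 ≤ n := le_trans (le_max_right _ _) hn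
  have hn0 : (0:ℝ) < n := by positivity
  have hn1' : (1:ℝ) < n := by exact_mod_cast (by omega : 1 < n)
  refine core_fixed r n hn2 V hV hcard ((n : ℝ) ^ (1 / (r : ℝ)))
    (C * (n : ℝ) ^ (1 / (4 * (r : ℝ)))) ?_ ?_ (by positivity) ?_ ?_ hBl (hn1 n hnn1).le
  · exact Real.one_lt_rpow hn1' (by positivity)
  · rw [← Real.rpow_natCast, ← Real.rpow_mul hn0.le, ← Real.rpow_natCast]
    congr 1
    push_cast
    field_simp
  · have h3 := hC V hV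
    refine h3.trans ?_
    have h4 : (V.card : ℝ) ^ (1 + 1 / (4 * (r : ℝ))) ≤ (n:ℝ) ^ (1 + 1 / (4 * (r : ℝ))) := by
      apply Real.rpow_le_rpow (by positivity) (by exact_mod_cast hcard) (by positivity)
    have h5 : (n:ℝ) ^ (1 + 1 / (4 * (r : ℝ))) = (n:ℝ) * (n:ℝ) ^ (1 / (4 * (r : ℝ))) := by
      rw [Real.rpow_add hn0, Real.rpow_one]
    calc C * (V.card : ℝ) ^ (1 + 1 / (4 * (r : ℝ)))
        ≤ C * (n:ℝ) ^ (1 + 1 / (4 * (r : ℝ))) := mul_le_mul_of_nonneg_left h4 hC0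
      _ = C * (n : ℝ) ^ (1 / (4 * (r : ℝ))) * n := by rw [h5]; ring
  · have hs : Real.sqrt ((n : ℝ) ^ (1 / (r : ℝ))) ≤ Real.sqrt n := by
      apply Real.sqrt_le_sqrt
      calc (n:ℝ) ^ (1 / (r : ℝ)) ≤ (n:ℝ) ^ (1:ℝ) := by
            apply Real.rpow_le_rpow_of_exponent_le hn1'.le
            rw [div_le_one hr0]
            exact_mod_cast hr
        _ = n := Real.rpow_one _
    rw [div_le_div_iff₀ (by positivity) (by norm_num)]
    have hsq : Real.sqrt n ^ 2 = n := Real.sq_sqrt hn0.le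
    nlinarith [sq_nonneg (Real.sqrt n - 1)]

theorem Pr_large (c : ℝ) (hc : 0 < c) : ∃ n0 : ℕ, ∀ n : ℕ, n0 ≤ n → Pr n (c * Real.log n) := by
  obtain ⟨r, hr, n1, hn1⟩ := window c hc
  obtain ⟨n2, hn2⟩ := core r hr
  refine ⟨max (max n1 n2) 1, fun n hn v hv hlac => ?_⟩
  have hnn1 : n1 ≤ n := le_trans (le_trans (le_max_left _ _) (le_max_left _ _)) hn
  have hnn2 : n2 ≤ n := le_trans (le_trans (le_max_right _ _) (le_max_left _ _)) hn
  have hn0 : 1 ≤ n := le_trans (le_max_right _ _) hn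
  have hn0' : (0:ℝ) < n := by exact_mod_cast hn0
  have hw := hn1 n hnn1 v hv hlac
  obtain ⟨t, ht⟩ := hn2 n hnn2 (univ.image v) (by
    intro x hx
    rw [mem_image] at hx
    obtain ⟨i, _, rfl⟩ := hx
    exact hv i) (Finset.card_image_le.trans (by simp)) (by
    intro k
    have hL0 : 0 < (n : ℝ) ^ (1 / (r : ℝ)) := by positivity
    have h1 := hw (((n : ℝ) ^ (1 / (r : ℝ))) ^ k) (by positivity)
    refine le_trans ?_ h1
    have hsub : Bl (univ.image v) ((n : ℝ) ^ (1 / (r : ℝ))) k ⊆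
        ((univ : Finset (Fin n)).filter
          (fun i => ((n : ℝ) ^ (1 / (r : ℝ))) ^ k ≤ (v i : ℝ) ∧
            (v i : ℝ) < ((n : ℝ) ^ (1 / (r : ℝ))) ^ k * (n : ℝ) ^ (1 / (r : ℝ)))).image v := by
      intro x hx
      simp only [Bl, mem_filter, mem_image, mem_univ, true_and] at hx ⊢
      obtain ⟨⟨i, rfl⟩, h3, h4⟩ := hx
      exact ⟨i, ⟨h3, by rw [← pow_succ]; exact h4⟩, rfl⟩
    exact_mod_cast (Finset.card_le_card hsub).trans Finset.card_image_le)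
  exact ⟨t, fun i => ht (v i) (mem_image_of_mem v (mem_univ i))⟩

theorem Pr_small (n : ℕ) (hn : 1 ≤ n) : Pr n (5 * n) := by
  intro v hv hlac
  have hn0 : (0:ℝ) < n := by exact_mod_cast hn
  obtain ⟨t, ht⟩ := very_lacunary n hn v hv (by
    intro i j hij
    have := hlac i j hij
    have h5 : 1 + 5 * (n:ℝ) / n = 6 := by field_simp; norm_num
    rwa [h5] at this)
  exact ⟨t, ht⟩

theorem main : ∃ ω : ℕ → ℝ, Asymptotics.IsLittleO Filter.atTop ω (fun n : ℕ => Real.log (n : ℝ)) ∧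
      ∀ n : ℕ, 1 ≤ n → Pr n (ω n) :=
  diag Pr_small Pr_large

end LRL

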